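import Mathlib

set_option autoImplicit false

/-!
Elementary Hilbert space tools: recursive choice of sequences, unit vectors orthogonal to finite
sets, coordinate projections attached to a Hilbert basis, and tails of expansions.
-/

namespace Pool.Agent.Lib.MP_dd30de_lc

open Submodule Filter Topology

theorem exists_seq_rec {α : Type*} (Q : (n : ℕ) → (Fin n → α) → α → Prop)
    (h : ∀ n f, ∃ y, Q n f y) : ∃ f : ℕ → α, ∀ n, Q n (fun i => f i) (f n) := by
  classical
  let F : (n : ℕ) → ((m : ℕ) → m < n → α) → α :=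
    fun n g => Classical.choose (h n (fun i => g i i.2))
  let f : ℕ → α := fun n => WellFounded.fix (C := fun _ => α) Nat.lt_wfRel.wf F n
  refine ⟨f, fun n => ?_⟩
  have hf : f n = F n (fun m _ => f m) := WellFounded.fix_eq _ _ _
  rw [hf]
  exact Classical.choose_spec (h n (fun i => f i))

variable {H : Type*} [NormedAddCommGroup H] [InnerProductSpace ℂ H]

theorem exists_unit_orth (W : Submodule ℂ H) (hW : ¬ FiniteDimensional ℂ W) (s : Set H)
    (hs : s.Finite) : ∃ u ∈ W, ‖u‖ = 1 ∧ ∀ v ∈ s, inner ℂ v u = 0 := by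
  classical
  have : Fintype s := hs.fintype
  let φ : W →ₗ[ℂ] (s → ℂ) :=
    LinearMap.pi (fun v : s => ((innerSL ℂ (v : H)).toLinearMap).comp W.subtype)
  have hinj : ¬ Function.Injective φ := fun hi => hW (FiniteDimensional.of_injective φ hi)
  rw [← LinearMap.ker_eq_bot] at hinj
  obtain ⟨u, hu, hu0⟩ := Submodule.exists_mem_ne_zero_of_ne_bot hinj
  have hu0' : (u : H) ≠ 0 := fun h => hu0 (Subtype.ext h)
  have hn : ‖(u : H)‖ ≠ 0 := norm_ne_zero_iff.mpr hu0'
  refine ⟨((‖(u : H)‖⁻¹ : ℝ) : ℂ) • (u : H), W.smul_mem _ u.2, ?_, ?_⟩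
  · rw [norm_smul]
    simp [hn]
  · intro v hv
    have := congrFun (LinearMap.mem_ker.mp hu) ⟨v, hv⟩
    simp only [φ, LinearMap.pi_apply, LinearMap.comp_apply, Pi.zero_apply] at this
    have h2 : inner ℂ v (u : H) = 0 := this
    rw [inner_smul_right, h2, mul_zero]

theorem exists_unit_exhaust (W : Submodule ℂ H) (hW : ¬ FiniteDimensional ℂ W) (s : Set H)
    (hs : s.Finite) (hsW : s ⊆ W) (w : H) (hw : w ∈ W) :
    ∃ u ∈ W, ‖u‖ = 1 ∧ (∀ v ∈ s, inner ℂ v u = 0) ∧ w ∈ span ℂ (insert u s) := by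
  classical
  have : FiniteDimensional ℂ (span ℂ s) := FiniteDimensional.span_of_finite ℂ hs
  have : CompleteSpace (span ℂ s) := FiniteDimensional.complete ℂ _
  set K := span ℂ s with hK
  have hKW : K ≤ W := span_le.mpr hsW
  have hPK : K.starProjection w ∈ K := K.starProjection_apply_mem w
  have hmono : ∀ u, K ≤ span ℂ (insert u s) := fun u => span_mono (Set.subset_insert _ _)
  by_cases h0 : w - K.starProjection w = 0
  · obtain ⟨u, huW, hu1, hu⟩ := exists_unit_orth W hW s hs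
    refine ⟨u, huW, hu1, hu, hmono u ?_⟩
    rw [sub_eq_zero] at h0
    rw [h0]; exact hPK
  · set w' := w - K.starProjection w with hw'
    have hn : ‖w'‖ ≠ 0 := norm_ne_zero_iff.mpr h0
    have horth : w' ∈ Kᗮ := K.sub_starProjection_mem_orthogonal w
    refine ⟨((‖w'‖⁻¹ : ℝ) : ℂ) • w', W.smul_mem _ (W.sub_mem hw (hKW hPK)), ?_, ?_, ?_⟩
    · rw [norm_smul]
      simp [hn]
    · intro v hv
      rw [inner_smul_right, (K.mem_orthogonal w').mp horth v (subset_span hv), mul_zero]
    · have h1 : w = K.starProjection w + ((‖w'‖ : ℝ) : ℂ) • (((‖w'‖⁻¹ : ℝ) : ℂ) • w') := by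
        rw [smul_smul, ← Complex.ofReal_mul, mul_inv_cancel₀ hn]
        simp [hw']
      rw [h1]
      exact add_mem (hmono _ hPK) (smul_mem _ _ (subset_span (Set.mem_insert _ _)))

variable {ι : Type*}

theorem basis_ext (b : HilbertBasis ι ℂ H) {u v : H}
    (h : ∀ t, inner ℂ (b t) u = inner ℂ (b t) v) : u = v := by
  apply b.repr.injective
  ext t
  rw [b.repr_apply_apply, b.repr_apply_apply, h]

theorem basis_inner (b : HilbertBasis ι ℂ H) [DecidableEq ι] (s t : ι) :
    inner ℂ (b s) (b t) = if s = t then 1 else 0 :=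
  orthonormal_iff_ite.mp b.orthonormal s t

theorem basis_hasSum (b : HilbertBasis ι ℂ H) (v : H) :
    HasSum (fun i => inner ℂ (b i) v • b i) v := by
  have := b.hasSum_repr v
  simpa only [b.repr_apply_apply] using this

theorem norm_le_of_coord (b : HilbertBasis ι ℂ H) (v : H) (c : ι → ℝ) (C : ℝ)
    (hc : HasSum c C) (h : ∀ t, ‖inner ℂ (b t) v‖ ≤ c t) : ‖v‖ ≤ C := by
  refine (basis_hasSum b v).norm_le_of_bounded hc (fun t => ?_)
  rw [norm_smul, b.orthonormal.1 t, mul_one]
  exact h t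

theorem clm_apply_eq_zero (b : HilbertBasis ι ℂ H) (φ : H →L[ℂ] ℂ) (v : H)
    (h : ∀ s, inner ℂ (b s) v = 0 ∨ φ (b s) = 0) : φ v = 0 := by
  have h1 := φ.hasSum (basis_hasSum b v)
  have h2 : (fun i => φ (inner ℂ (b i) v • b i)) = fun _ => 0 := by
    funext i
    rw [map_smul]
    rcases h i with h | h <;> simp [h]
  rw [h2] at h1
  exact h1.unique hasSum_zero

theorem tail_small (b : HilbertBasis ℕ ℂ H) (m : H) (ε : ℝ) (hε : 0 < ε) :
    ∃ n : ℕ, ∀ u : H, (∀ s < n, inner ℂ (b s) u = 0) → ‖inner ℂ m u‖ ≤ ε * ‖u‖ := by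
  have h1 := (basis_hasSum b m).tendsto_sum_nat
  rw [Metric.tendsto_atTop] at h1
  obtain ⟨n, hn⟩ := h1 ε hε
  refine ⟨n, fun u hu => ?_⟩
  have h2 := hn n le_rfl
  rw [dist_comm, dist_eq_norm] at h2
  have h3 : inner ℂ m u = inner ℂ (m - ∑ i ∈ Finset.range n, inner ℂ (b i) m • b i) u := by
    rw [inner_sub_left, sum_inner]
    have : ∑ i ∈ Finset.range n, inner ℂ (inner ℂ (b i) m • b i) u = 0 := by
      refine Finset.sum_eq_zero (fun i hi => ?_)
      rw [inner_smul_left, hu i (Finset.mem_range.mp hi), mul_zero]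
    rw [this, sub_zero]
  rw [h3]
  exact (norm_inner_le_norm _ _).trans (mul_le_mul_of_nonneg_right h2.le (norm_nonneg _))

theorem not_finiteDimensional_top (b : HilbertBasis ℕ ℂ H) :
    ¬ FiniteDimensional ℂ (⊤ : Submodule ℂ H) := by
  intro h
  have : FiniteDimensional ℂ H := Module.Finite.equiv (Submodule.topEquiv)
  exact Module.Finite.not_linearIndependent_of_infinite _ b.orthonormal.linearIndependent

variable [CompleteSpace H]

/-- The orthogonal projection onto the closed span of the basis vectors indexed by `S`. -/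
noncomputable def cproj (b : HilbertBasis ι ℂ H) (S : Set ι) : H →L[ℂ] H :=
  (span ℂ (b '' Sᶜ))ᗮ.starProjection

theorem inner_cproj_of_notMem (b : HilbertBasis ι ℂ H) (S : Set ι) (v : H) {t : ι} (ht : t ∉ S) :
    inner ℂ (b t) (cproj b S v) = 0 := by
  have h := (span ℂ (b '' Sᶜ))ᗮ.starProjection_apply_mem v
  exact (Submodule.mem_orthogonal _ _).mp h (b t) (subset_span ⟨t, ht, rfl⟩)

omit [CompleteSpace H] in
theorem mem_orth_of_coord (b : HilbertBasis ι ℂ H) (S : Set ι) (v : H)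
    (h : ∀ t ∉ S, inner ℂ (b t) v = 0) : v ∈ (span ℂ (b '' Sᶜ))ᗮ := by
  rw [Submodule.mem_orthogonal]
  intro u hu
  induction hu using Submodule.span_induction with
  | mem x hx =>
    obtain ⟨t, ht, rfl⟩ := hx
    exact h t ht
  | zero => simp
  | add x y _ _ hx hy => rw [inner_add_left, hx, hy, add_zero]
  | smul a x _ hx => rw [inner_smul_left, hx, mul_zero]

theorem cproj_eq_self (b : HilbertBasis ι ℂ H) (S : Set ι) (v : H)
    (h : ∀ t ∉ S, inner ℂ (b t) v = 0) : cproj b S v = v :=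
  starProjection_eq_self_iff.mpr (mem_orth_of_coord b S v h)

theorem inner_cproj_of_mem (b : HilbertBasis ι ℂ H) (S : Set ι) (v : H) {t : ι} (ht : t ∈ S) :
    inner ℂ (b t) (cproj b S v) = inner ℂ (b t) v := by
  classical
  have hb : b t ∈ (span ℂ (b '' Sᶜ))ᗮ := by
    refine mem_orth_of_coord b S _ (fun s hs => ?_)
    rw [basis_inner, if_neg]
    rintro rfl
    exact hs ht
  have h := (span ℂ (b '' Sᶜ))ᗮ.starProjection_inner_eq_zero v (b t) hb
  rw [inner_eq_zero_symm, inner_sub_right, sub_eq_zero] at h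
  exact h.symm

theorem norm_cproj_le (b : HilbertBasis ι ℂ H) (S : Set ι) (v : H) : ‖cproj b S v‖ ≤ ‖v‖ :=
  norm_starProjection_apply_le _ v

theorem cproj_add_compl (b : HilbertBasis ι ℂ H) (S : Set ι) (v : H) :
    cproj b S v + cproj b Sᶜ v = v := by
  refine basis_ext b (fun t => ?_)
  rw [inner_add_right]
  by_cases ht : t ∈ S
  · rw [inner_cproj_of_mem b S v ht, inner_cproj_of_notMem b Sᶜ v (fun h => h ht), add_zero]
  · rw [inner_cproj_of_notMem b S v ht, inner_cproj_of_mem b Sᶜ v ht, zero_add]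

theorem cproj_cproj (b : HilbertBasis ι ℂ H) (S : Set ι) (v : H) :
    cproj b S (cproj b S v) = cproj b S v :=
  cproj_eq_self b S _ (fun _ ht => inner_cproj_of_notMem b S v ht)

end Pool.Agent.Lib.MP_dd30de_lc
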