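import Pool.Agent.Lib.MP_dd30de_lc.LaxPhillips

set_option autoImplicit false

/-!
Every set of unitaries whose orbits are uniformly tight (for instance a strongly compact set) can
be translated into the class of bilateral shifts of infinite multiplicity.
-/

namespace Pool.Agent.Lib.MP_dd30de_lc

open Submodule Filter Topology

variable {H : Type*} [NormedAddCommGroup H] [InnerProductSpace ℂ H]

/-- The vectors `x v` and `x⁻¹ v`, for `x` in `K`, have uniformly small tails in the basis `e`. -/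
def Tight (e : HilbertBasis ℕ ℂ H) (K : Set (H ≃ₗᵢ[ℂ] H)) (v : H) : Prop :=
  ∀ ε : ℝ, 0 < ε → ∃ N : ℕ, ∀ x ∈ K, ∀ u : H, (∀ i < N, inner ℂ (e i) u = 0) →
    ‖inner ℂ u (x v)‖ ≤ ε * ‖u‖ ∧ ‖inner ℂ v (x u)‖ ≤ ε * ‖u‖

theorem tight_all (e : HilbertBasis ℕ ℂ H) (K : Set (H ≃ₗᵢ[ℂ] H)) (h : ∀ n, Tight e K (e n))
    (v : H) : Tight e K v := by
  have hadd : ∀ v w, Tight e K v → Tight e K w → Tight e K (v + w) := by
    intro v w hv hw ε hε
    obtain ⟨N, hN⟩ := hv (ε / 2) (by positivity)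
    obtain ⟨M, hM⟩ := hw (ε / 2) (by positivity)
    refine ⟨max N M, fun x hx u hu => ?_⟩
    have h1 := hN x hx u (fun i hi => hu i (lt_max_of_lt_left hi))
    have h2 := hM x hx u (fun i hi => hu i (lt_max_of_lt_right hi))
    constructor
    · rw [map_add, inner_add_right]
      exact (norm_add_le _ _).trans (by linarith [h1.1, h2.1])
    · rw [inner_add_left]
      exact (norm_add_le _ _).trans (by linarith [h1.2, h2.2])
  have hsmul : ∀ (c : ℂ) v, Tight e K v → Tight e K (c • v) := by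
    intro c v hv ε hε
    obtain ⟨N, hN⟩ := hv (ε / (‖c‖ + 1)) (by positivity)
    refine ⟨N, fun x hx u hu => ?_⟩
    have h1 := hN x hx u hu
    have h2 : ‖c‖ * (ε / (‖c‖ + 1) * ‖u‖) ≤ ε * ‖u‖ := by
      rw [← mul_assoc]
      refine mul_le_mul_of_nonneg_right ?_ (norm_nonneg _)
      rw [← mul_div_assoc, div_le_iff₀ (by positivity)]
      nlinarith [norm_nonneg c]
    constructor
    · rw [map_smul, inner_smul_right, norm_mul]
      exact (mul_le_mul_of_nonneg_left h1.1 (norm_nonneg _)).trans h2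
    · rw [inner_smul_left, norm_mul, RCLike.norm_conj]
      exact (mul_le_mul_of_nonneg_left h1.2 (norm_nonneg _)).trans h2
  have hzero : Tight e K 0 := by
    intro ε hε
    refine ⟨0, fun x _ u _ => ?_⟩
    simp only [map_zero, inner_zero_right, inner_zero_left, norm_zero]
    constructor <;> positivity
  have hsum : ∀ n : ℕ, Tight e K (∑ i ∈ Finset.range n, inner ℂ (e i) v • e i) := by
    intro n
    induction n with
    | zero => simpa using hzero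
    | succ n ih =>
      rw [Finset.sum_range_succ]
      exact hadd _ _ ih (hsmul _ _ (h n))
  intro ε hε
  have h1 := (basis_hasSum e v).tendsto_sum_nat
  rw [Metric.tendsto_atTop] at h1
  obtain ⟨n, hn⟩ := h1 (ε / 2) (by positivity)
  have h2 := hn n le_rfl
  rw [dist_comm, dist_eq_norm] at h2
  set v' := ∑ i ∈ Finset.range n, inner ℂ (e i) v • e i with hv'
  obtain ⟨N, hN⟩ := hsum n (ε / 2) (by positivity)
  refine ⟨N, fun x hx u hu => ?_⟩
  have h3 := hN x hx u hu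
  have e1 : v = v' + (v - v') := by abel
  constructor
  · have h4 : ‖inner ℂ u (x (v - v'))‖ ≤ ε / 2 * ‖u‖ := by
      refine (norm_inner_le_norm _ _).trans ?_
      rw [x.norm_map, mul_comm]
      exact mul_le_mul_of_nonneg_right h2.le (norm_nonneg _)
    rw [e1, map_add, inner_add_right]
    exact (norm_add_le _ _).trans (by linarith [h3.1])
  · have h4 : ‖inner ℂ (v - v') (x u)‖ ≤ ε / 2 * ‖u‖ := by
      refine (norm_inner_le_norm _ _).trans ?_
      rw [x.norm_map]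
      exact mul_le_mul_of_nonneg_right h2.le (norm_nonneg _)
    rw [e1, inner_add_left]
    exact (norm_add_le _ _).trans (by linarith [h3.2])

theorem exists_far (e : HilbertBasis ℕ ℂ H) (K : Set (H ≃ₗᵢ[ℂ] H)) (hK : ∀ v, Tight e K v)
    (s t : Set H) (hs : s.Finite) (ht : t.Finite) (ε : ℝ) (hε : 0 < ε) :
    ∃ u : H, ‖u‖ = 1 ∧ (∀ v ∈ s, inner ℂ v u = 0) ∧
      ∀ v ∈ t, ∀ x ∈ K, ‖inner ℂ u (x v)‖ ≤ ε ∧ ‖inner ℂ v (x u)‖ ≤ ε := by
  choose N hN using fun v => hK v ε hε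
  obtain ⟨M, hM⟩ := (ht.image N).bddAbove
  obtain ⟨u, -, hu1, hu⟩ := exists_unit_orth ⊤ (not_finiteDimensional_top e)
    (s ∪ e '' (Set.Iio M)) (hs.union ((Set.finite_Iio M).image _))
  refine ⟨u, hu1, fun v hv => hu v (Or.inl hv), fun v hv x hx => ?_⟩
  have := hN v x hx u (fun i hi => hu _ (Or.inr ⟨i, lt_of_lt_of_le hi (hM ⟨v, hv, rfl⟩), rfl⟩))
  rwa [hu1, mul_one] at this

theorem exists_pair_seq (e : HilbertBasis ℕ ℂ H) (K : Set (H ≃ₗᵢ[ℂ] H)) (hK : ∀ v, Tight e K v)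
    (ε : ℕ → ℝ) (hε : ∀ n, 0 < ε n) :
    ∃ a b : ℕ → H, Orthonormal ℂ a ∧ Orthonormal ℂ b ∧
      (∀ k, e k ∈ span ℂ (Set.range a)) ∧ (∀ k, e k ∈ span ℂ (Set.range b)) ∧
      (∀ n, n % 3 ≠ 1 → ∀ i ≤ n, ∀ x ∈ K, ‖inner ℂ (a i) (x (b n))‖ ≤ ε n) ∧
      (∀ n, n % 3 ≠ 0 → ∀ i ≤ n, ∀ x ∈ K, ‖inner ℂ (a n) (x (b i))‖ ≤ ε n) := by
  obtain ⟨f, hf⟩ := exists_seq_rec (α := H × H)
    (fun n f y => ‖y.1‖ = 1 ∧ ‖y.2‖ = 1 ∧ (∀ i, inner ℂ (f i).1 y.1 = 0) ∧
      (∀ i, inner ℂ (f i).2 y.2 = 0) ∧ (∀ x ∈ K, ‖inner ℂ y.1 (x y.2)‖ ≤ ε n) ∧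
      (n % 3 ≠ 1 → ∀ i, ∀ x ∈ K, ‖inner ℂ (f i).1 (x y.2)‖ ≤ ε n) ∧
      (n % 3 ≠ 0 → ∀ i, ∀ x ∈ K, ‖inner ℂ y.1 (x (f i).2)‖ ≤ ε n) ∧
      (n % 3 = 0 → e (n / 3) ∈ span ℂ (insert y.1 (Set.range fun i => (f i).1))) ∧
      (n % 3 = 1 → e (n / 3) ∈ span ℂ (insert y.2 (Set.range fun i => (f i).2))))
    (fun n f => by
      have hA : (Set.range fun i => (f i).1).Finite := Set.finite_range _
      have hB : (Set.range fun i => (f i).2).Finite := Set.finite_range _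
      by_cases h0 : n % 3 = 0
      · obtain ⟨a, -, ha1, ha2, ha3⟩ := exists_unit_exhaust ⊤ (not_finiteDimensional_top e)
          _ hA (fun _ _ => trivial) (e (n / 3)) trivial
        obtain ⟨b, hb1, hb2, hb3⟩ := exists_far e K hK _ _ hB (hA.insert a) (ε n) (hε n)
        exact ⟨(a, b), ha1, hb1, fun i => ha2 _ ⟨i, rfl⟩, fun i => hb2 _ ⟨i, rfl⟩,
          fun x hx => (hb3 a (Or.inl rfl) x hx).2,
          fun _ i x hx => (hb3 _ (Or.inr ⟨i, rfl⟩) x hx).2, fun h => absurd h0 h,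
          fun _ => ha3, fun h => by omega⟩
      · by_cases h1 : n % 3 = 1
        · obtain ⟨b, -, hb1, hb2, hb3⟩ := exists_unit_exhaust ⊤ (not_finiteDimensional_top e)
            _ hB (fun _ _ => trivial) (e (n / 3)) trivial
          obtain ⟨a, ha1, ha2, ha3⟩ := exists_far e K hK _ _ hA (hB.insert b) (ε n) (hε n)
          exact ⟨(a, b), ha1, hb1, fun i => ha2 _ ⟨i, rfl⟩, fun i => hb2 _ ⟨i, rfl⟩,
            fun x hx => (ha3 b (Or.inl rfl) x hx).1, fun h => absurd h1 h,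
            fun _ i x hx => (ha3 _ (Or.inr ⟨i, rfl⟩) x hx).1, fun h => absurd h h0,
            fun _ => hb3⟩
        · obtain ⟨a, ha1, ha2, ha3⟩ := exists_far e K hK _ _ hA hB (ε n) (hε n)
          obtain ⟨b, hb1, hb2, hb3⟩ := exists_far e K hK _ _ hB (hA.insert a) (ε n) (hε n)
          exact ⟨(a, b), ha1, hb1, fun i => ha2 _ ⟨i, rfl⟩, fun i => hb2 _ ⟨i, rfl⟩,
            fun x hx => (hb3 a (Or.inl rfl) x hx).2,
            fun _ i x hx => (hb3 _ (Or.inr ⟨i, rfl⟩) x hx).2,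
            fun _ i x hx => (ha3 _ ⟨i, rfl⟩ x hx).1, fun h => absurd h h0,
            fun h => absurd h h1⟩)
  refine ⟨fun n => (f n).1, fun n => (f n).2,
    orthonormal_of_lt _ (fun n => (hf n).1) (fun i j hij => (hf j).2.2.1 ⟨i, hij⟩),
    orthonormal_of_lt _ (fun n => (hf n).2.1) (fun i j hij => (hf j).2.2.2.1 ⟨i, hij⟩),
    fun k => ?_, fun k => ?_, fun n hn i hi x hx => ?_, fun n hn i hi x hx => ?_⟩
  · have := (hf (3 * k)).2.2.2.2.2.2.2.1 (by omega)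
    rw [show 3 * k / 3 = k by omega] at this
    refine span_mono ?_ this
    rintro _ (rfl | ⟨i, rfl⟩)
    · exact ⟨_, rfl⟩
    · exact ⟨_, rfl⟩
  · have := (hf (3 * k + 1)).2.2.2.2.2.2.2.2 (by omega)
    rw [show (3 * k + 1) / 3 = k by omega] at this
    refine span_mono ?_ this
    rintro _ (rfl | ⟨i, rfl⟩)
    · exact ⟨_, rfl⟩
    · exact ⟨_, rfl⟩
  · rcases hi.eq_or_lt with rfl | hi
    · exact (hf i).2.2.2.2.1 x hx
    · exact (hf n).2.2.2.2.2.1 hn ⟨i, hi⟩ x hx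
  · rcases hi.eq_or_lt with rfl | hi
    · exact (hf i).2.2.2.2.1 x hx
    · exact (hf n).2.2.2.2.2.2.1 hn ⟨i, hi⟩ x hx

theorem orth_eq_bot_of_basis_mem (e : HilbertBasis ℕ ℂ H) (a : ℕ → H)
    (h : ∀ k, e k ∈ span ℂ (Set.range a)) : (span ℂ (Set.range a))ᗮ = ⊥ := by
  rw [Submodule.eq_bot_iff]
  intro m hm
  refine basis_ext e (fun t => ?_)
  rw [inner_zero_right]
  exact (Submodule.mem_orthogonal _ _).mp hm _ (h t)

variable [CompleteSpace H]

theorem exists_catcher (e : HilbertBasis ℕ ℂ H) (K : Set (H ≃ₗᵢ[ℂ] H))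
    (hK : ∀ n, Tight e K (e n)) : ∃ g : H ≃ₗᵢ[ℂ] H, ∀ x ∈ K, IsMultishift (g * x) := by
  obtain ⟨a, b, ha, hb, hae, hbe, hP1, hP2⟩ := exists_pair_seq e K (tight_all e K hK)
    (fun n => 1 / 64 * (1 / 2) ^ n * (1 / 2) ^ n) (fun n => by positivity)
  let a' : HilbertBasis ℕ ℂ H :=
    HilbertBasis.mkOfOrthogonalEqBot ha (orth_eq_bot_of_basis_mem e a hae)
  let b' : HilbertBasis ℕ ℂ H :=
    HilbertBasis.mkOfOrthogonalEqBot hb (orth_eq_bot_of_basis_mem e b hbe)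
  have ha' : ∀ i, a' i = a i := fun i => congrFun (HilbertBasis.coe_mkOfOrthogonalEqBot _ _) i
  have hb' : ∀ i, b' i = b i := fun i => congrFun (HilbertBasis.coe_mkOfOrthogonalEqBot _ _) i
  let g : H ≃ₗᵢ[ℂ] H := a'.repr.trans b'.repr.symm
  have hg : ∀ i, g (a' i) = b' i := repr_trans_apply a' b'
  refine ⟨g, fun x hx => ?_⟩
  have hm : ∀ t s, inner ℂ (b' t) ((g * x) (b' s)) = inner ℂ (a t) (x (b s)) := by
    intro t s
    rw [LinearIsometryEquiv.coe_mul, Function.comp_apply, ← hg t, g.inner_map_map, ha', hb']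
  have hmono : ∀ i n : ℕ, i ≤ n → ((1 : ℝ) / 2) ^ n ≤ (1 / 2) ^ i := fun i n h =>
    pow_le_pow_of_le_one (by norm_num) (by norm_num) h
  have hQ : ∀ t s : ℕ, (t ≤ s ∧ s % 3 ≠ 1) ∨ (s ≤ t ∧ t % 3 ≠ 0) →
      ‖inner ℂ (a t) (x (b s))‖ ≤ 1 / 64 * (1 / 2) ^ s * (1 / 2) ^ t := by
    rintro t s (⟨h1, h2⟩ | ⟨h1, h2⟩)
    · refine (hP1 s h2 t h1 x hx).trans ?_
      exact mul_le_mul_of_nonneg_left (hmono t s h1) (by positivity)
    · refine (hP2 t h2 s h1 x hx).trans ?_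
      refine mul_le_mul_of_nonneg_right ?_ (by positivity)
      exact mul_le_mul_of_nonneg_left (hmono s t h1) (by positivity)
  let S : Set ℕ := {s | s % 3 ≠ 1}
  let R : Set ℕ := {s | s % 3 = 0}
  have hRS : R ⊆ S := fun s (hs : s % 3 = 0) => show s % 3 ≠ 1 by omega
  obtain ⟨A, hA1, hA2, hA3⟩ := exists_model b' (g * x) S R (1 / 64) (by norm_num)
    (fun s (hs : s % 3 ≠ 1) t (hst : ¬ (s < t ∧ t % 3 = 0)) => by
      rw [hm]
      exact hQ t s (by omega))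
  obtain ⟨Ω, h1, h2, h3, h4⟩ := exists_wave b' (g * x) S R hRS (4 * (1 / 64)) (by norm_num)
    (by norm_num) A hA1 hA2 hA3
  obtain ⟨A', hA1', hA2', hA3'⟩ := exists_model b' (g * x)⁻¹ Sᶜ Sᶜ (1 / 64) (by norm_num)
    (fun s (hs : ¬ s % 3 ≠ 1) t (hst : ¬ (s < t ∧ ¬ t % 3 ≠ 1)) => by
      have e1 : inner ℂ (b' t) ((g * x)⁻¹ (b' s)) = inner ℂ ((g * x) (b' t)) (b' s) := by
        rw [← (g * x).inner_map_map]
        congr 1
        exact (g * x).apply_symm_apply _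
      rw [e1, norm_inner_symm, hm, mul_right_comm]
      exact hQ s t (by omega))
  obtain ⟨Ω', h1', -, -, h4'⟩ := exists_wave b' (g * x)⁻¹ Sᶜ Sᶜ subset_rfl (4 * (1 / 64))
    (by norm_num) (by norm_num) A' hA1' hA2' hA3'
  refine isMultishift_of_waves b' (g * x) S R hRS ?_ Ω Ω'
    (fun v => (h1 v).trans (le_of_eq (by norm_num))) h2 h3 h4
    (fun v => (h1' v).trans (le_of_eq (by norm_num))) h4'
  refine Set.infinite_of_injective_forall_mem (f := fun k : ℕ => 3 * k + 2)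
    (fun i j hij => by simpa using hij) (fun k => ⟨?_, ?_⟩)
  · show (3 * k + 2) % 3 ≠ 1
    omega
  · show ¬ (3 * k + 2) % 3 = 0
    omega

end Pool.Agent.Lib.MP_dd30de_lc
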