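import Pool.Agent.Lib.MP_dd30de_lc.LaxPhillips

set_option autoImplicit false

/-!
A unitary whose matrix is nearly triangular outside a finite corner is a bilateral shift of
infinite multiplicity on a reducing subspace of finite codimension.
-/

namespace Pool.Agent.Lib.MP_dd30de_lc

open Submodule Filter Topology InnerProductSpace

variable {H : Type*} [NormedAddCommGroup H] [InnerProductSpace ℂ H]

/-- `T` is a bilateral shift of infinite multiplicity on a subspace of finite codimension. -/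
def AlmostShift (T : H ≃ₗᵢ[ℂ] H) : Prop :=
  ∃ f : ℤ × ℕ → H, Orthonormal ℂ f ∧ (∀ n i, T (f (n, i)) = f (n + 1, i)) ∧
    FiniteDimensional ℂ (span ℂ (Set.range f))ᗮ

variable [CompleteSpace H]

theorem low_of_close (b : HilbertBasis ℕ ℂ H) (S : Set ℕ) (Ω : H →L[ℂ] H)
    (h1 : ∀ v, ‖Ω v - cproj b S v‖ ≤ 1 / 4 * ‖v‖) :
    ∀ v, (∀ t ∉ S, inner ℂ (b t) v = 0) → ‖v‖ ≤ 2 * ‖Ω v‖ := by
  intro v hv
  have h := h1 v
  rw [cproj_eq_self b S v hv] at h
  have h' := norm_sub_le (Ω v) (Ω v - v)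
  rw [sub_sub_cancel] at h'
  linarith [norm_nonneg v]

theorem decay_eventually (b : HilbertBasis ℕ ℂ H) (T : H ≃ₗᵢ[ℂ] H) (S : Set ℕ) (Ω : H →L[ℂ] H)
    (h1 : ∀ v, ‖Ω v - cproj b S v‖ ≤ 1 / 4 * ‖v‖) (h2 : ∀ v, Ω (cproj b S v) = Ω v)
    (h3 : ∀ v, ∃ w, (∀ t ∉ S, inner ℂ (b t) w = 0) ∧ T (Ω v) = Ω w)
    (h4 : ∀ m ε, 0 < ε → ∃ n : ℕ, ∀ v, ‖inner ℂ m ((T ^ n) (Ω v))‖ ≤ ε * ‖v‖) (m : H) :
    ∀ᶠ n : ℕ in atTop, ∀ v, ‖inner ℂ m ((T ^ n) (Ω v))‖ ≤ 1 / 4 * ‖v‖ := by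
  have h5 : ∀ (k : ℕ) v, ∃ w, (∀ t ∉ S, inner ℂ (b t) w = 0) ∧ (T ^ k) (Ω v) = Ω w := by
    intro k v
    induction k with
    | zero => exact ⟨_, fun t ht => inner_cproj_of_notMem b S v ht, by simp [h2]⟩
    | succ k ih =>
      obtain ⟨w, -, hw⟩ := ih
      obtain ⟨w', hw1, hw2⟩ := h3 w
      exact ⟨w', hw1, by
        rw [pow_succ', LinearIsometryEquiv.coe_mul, Function.comp_apply, hw, hw2]⟩
  obtain ⟨n, hn⟩ := h4 m (1 / 10) (by norm_num)
  filter_upwards [eventually_ge_atTop n] with k hk v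
  obtain ⟨j, rfl⟩ := Nat.exists_eq_add_of_le hk
  obtain ⟨w, hw1, hw2⟩ := h5 j v
  rw [pow_add, LinearIsometryEquiv.coe_mul, Function.comp_apply, hw2]
  refine (hn w).trans ?_
  have a1 := low_of_close b S Ω h1 w hw1
  rw [← hw2, LinearIsometryEquiv.norm_map] at a1
  have a2 := norm_add_le (Ω v - cproj b S v) (cproj b S v)
  rw [sub_add_cancel] at a2
  linarith [h1 v, norm_cproj_le b S v]

theorem almost_of_waves (b : HilbertBasis ℕ ℂ H) (T : H ≃ₗᵢ[ℂ] H) (S R S' : Set ℕ) (l : ℕ)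
    (hRS : R ⊆ S) (hinf : (S \ R).Infinite) (hd : ∀ s ∈ S, s ∉ S')
    (hl : ∀ s, (s ∈ S ∨ s ∈ S') ↔ l ≤ s) (Ω Ω' : H →L[ℂ] H)
    (h1 : ∀ v, ‖Ω v - cproj b S v‖ ≤ 1 / 4 * ‖v‖) (h2 : ∀ v, Ω (cproj b S v) = Ω v)
    (h3 : ∀ v, ∃ w, (∀ t ∉ R, inner ℂ (b t) w = 0) ∧ T (Ω v) = Ω w)
    (h4 : ∀ m ε, 0 < ε → ∃ n : ℕ, ∀ v, ‖inner ℂ m ((T ^ n) (Ω v))‖ ≤ ε * ‖v‖)
    (h1' : ∀ v, ‖Ω' v - cproj b S' v‖ ≤ 1 / 4 * ‖v‖)
    (h4' : ∀ m, ∀ᶠ n : ℕ in atTop, ∀ v, ‖inner ℂ m ((T⁻¹ ^ n) (Ω' v))‖ ≤ 1 / 4 * ‖v‖) :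
    AlmostShift T := by
  classical
  have hlow : ∀ v, (∀ t ∉ S, inner ℂ (b t) v = 0) → ‖v‖ ≤ 2 * ‖Ω v‖ := by
    intro v hv
    have h := h1 v
    rw [cproj_eq_self b S v hv] at h
    have h' := norm_sub_le (Ω v) (Ω v - v)
    rw [sub_sub_cancel] at h'
    linarith [norm_nonneg v]
  let D : Submodule ℂ H := LinearMap.range (Ω : H →ₗ[ℂ] H)
  have hDmem : ∀ v, Ω v ∈ D := fun v => ⟨v, rfl⟩
  have hDcl : IsClosed (D : Set H) := by
    let V : Submodule ℂ H := (span ℂ (b '' Sᶜ))ᗮ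
    have hanti : AntilipschitzWith 2 (Ω.comp V.subtypeL) := by
      refine AddMonoidHomClass.antilipschitz_of_bound _ (fun x => ?_)
      exact hlow x (fun t ht =>
        (Submodule.mem_orthogonal _ _).mp x.2 (b t) (subset_span ⟨t, ht, rfl⟩))
    have hcl := hanti.isClosed_range (Ω.comp V.subtypeL).uniformContinuous
    convert hcl using 1
    ext y
    constructor
    · rintro ⟨v, rfl⟩
      exact ⟨⟨cproj b S v, V.starProjection_apply_mem v⟩, h2 v⟩
    · rintro ⟨v, rfl⟩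
      exact hDmem _
  have : CompleteSpace D := hDcl.completeSpace_coe
  let Y : Submodule ℂ H := D.map (T.toLinearEquiv : H →ₗ[ℂ] H)
  have : Y.HasOrthogonalProjection := HasOrthogonalProjection.map_linearIsometryEquiv D T
  have hTD : ∀ d ∈ D, T d ∈ D := by
    rintro _ ⟨v, rfl⟩
    obtain ⟨w, -, hw⟩ := h3 v
    exact ⟨w, hw.symm⟩
  have hYD : Y ≤ D := by
    rintro _ ⟨d, hd, rfl⟩
    exact hTD d hd
  have hTY : ∀ d ∈ D, T d ∈ Y := fun d hd => ⟨d, hd, rfl⟩
  let W : Submodule ℂ H := D ⊓ Yᗮ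
  have hWcl : IsClosed (W : Set H) := hDcl.inter Y.isClosed_orthogonal
  have : CompleteSpace W := hWcl.completeSpace_coe
  have hWmem : ∀ d ∈ D, d - Y.starProjection d ∈ W := fun d hd =>
    ⟨D.sub_mem hd (hYD (Y.starProjection_apply_mem d)), Y.sub_starProjection_mem_orthogonal d⟩
  have hdec : ∀ d ∈ D, ∃ w ∈ W, ∃ d' ∈ D, d = w + T d' ∧ ‖d'‖ ≤ ‖d‖ := by
    intro d hd
    obtain ⟨d', hd', hd''⟩ := Y.starProjection_apply_mem d
    have e : T d' = Y.starProjection d := hd''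
    refine ⟨_, hWmem d hd, d', hd', by rw [e, sub_add_cancel], ?_⟩
    rw [← T.norm_map, e]
    exact norm_starProjection_apply_le _ _
  have hWinf : ¬ FiniteDimensional ℂ W := by
    intro hfin
    have : Infinite (S \ R : Set ℕ) := hinf.to_subtype
    let L : H →ₗ[ℂ] H := (Ω : H →ₗ[ℂ] H) - (Y.starProjection : H →ₗ[ℂ] H).comp (Ω : H →ₗ[ℂ] H)
    have hL : ∀ v, L v = Ω v - Y.starProjection (Ω v) := fun v => rfl
    have hli : LinearIndependent ℂ (fun c : (S \ R : Set ℕ) => b c) :=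
      b.orthonormal.linearIndependent.comp _ Subtype.val_injective
    have hdisj : Disjoint (span ℂ (Set.range fun c : (S \ R : Set ℕ) => b c)) (LinearMap.ker L) := by
      rw [Submodule.disjoint_def]
      intro v hv hker
      have hv' : ∀ t, t ∉ S \ R → inner ℂ (b t) v = 0 := by
        intro t ht
        refine inner_eq_zero_of_mem_span ?_ hv
        rintro _ ⟨c, rfl⟩
        rw [basis_inner, if_neg]
        rintro rfl
        exact ht c.2
      rw [LinearMap.mem_ker, hL, sub_eq_zero] at hker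
      obtain ⟨_, ⟨u, rfl⟩, hu⟩ := Y.starProjection_apply_mem (Ω v)
      obtain ⟨w, hwR, hw⟩ := h3 u
      have e : Ω w = Ω v := by rw [← hw, hker]; exact hu
      have hvw : v - w = 0 := by
        have := hlow (v - w) (fun t ht => by
          rw [inner_sub_right, hv' t (fun h => ht h.1), hwR t (fun h => ht (hRS h)), sub_zero])
        rw [map_sub, e, sub_self, norm_zero, mul_zero] at this
        exact norm_le_zero_iff.mp this
      rw [sub_eq_zero] at hvw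
      refine basis_ext b (fun t => ?_)
      rw [inner_zero_right]
      by_cases ht : t ∈ R
      · exact hv' t (fun h => h.2 ht)
      · rw [hvw]; exact hwR t ht
    have hli2 := hli.map hdisj
    have hli3 : LinearIndependent ℂ
        (fun c : (S \ R : Set ℕ) => (⟨L (b c), hWmem _ (hDmem _)⟩ : W)) :=
      LinearIndependent.of_comp W.subtype hli2
    exact Module.Finite.not_linearIndependent_of_infinite _ hli3
  obtain ⟨w, hwW, hwon, hwc⟩ := exists_onb b W hWinf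
  have hTkD : ∀ k : ℕ, ∀ d ∈ D, (T ^ k) d ∈ D := by
    intro k d hd
    induction k with
    | zero => simpa using hd
    | succ k ih =>
      rw [pow_succ', LinearIsometryEquiv.coe_mul, Function.comp_apply]
      exact hTD _ ih
  have hzadd : ∀ (n k : ℤ) (x : H), (T ^ (n + k)) x = (T ^ n) ((T ^ k) x) := by
    intro n k x
    rw [zpow_add, LinearIsometryEquiv.coe_mul, Function.comp_apply]
  have hwand : ∀ (n k : ℤ), n < k → ∀ x ∈ W, ∀ y ∈ W, inner ℂ ((T ^ n) x) ((T ^ k) y) = 0 := by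
    intro n k hnk x hx y hy
    obtain ⟨j, rfl⟩ : ∃ j : ℕ, k = n + ((j + 1 : ℕ) : ℤ) := ⟨(k - n - 1).toNat, by omega⟩
    rw [hzadd, LinearIsometryEquiv.inner_map_map, zpow_natCast, pow_succ',
      LinearIsometryEquiv.coe_mul, Function.comp_apply, inner_eq_zero_symm]
    exact (Y.mem_orthogonal x).mp hx.2 _ (hTY _ (hTkD j y hy.1))
  let f : ℤ × ℕ → H := fun p => (T ^ p.1) (w p.2)
  have hfon : Orthonormal ℂ f := by
    refine ⟨fun p => by simp only [f, LinearIsometryEquiv.norm_map, hwon.1], ?_⟩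
    rintro ⟨n, i⟩ ⟨k, j⟩ hne
    rcases lt_trichotomy n k with h | h | h
    · exact hwand n k h _ (hwW i) _ (hwW j)
    · subst h
      have hij : i ≠ j := fun h => hne (by rw [h])
      simp only [f, LinearIsometryEquiv.inner_map_map]
      exact hwon.2 hij
    · exact inner_eq_zero_symm.mp (hwand k n h _ (hwW j) _ (hwW i))
  -- a vector orthogonal to all forward images of `W` is orthogonal to `D`
  have hfwd : ∀ m : H, (∀ k : ℕ, ∀ x ∈ W, inner ℂ m ((T ^ k) x) = 0) →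
      ∀ d ∈ D, inner ℂ m d = 0 := by
    intro m hm d hd
    have hit : ∀ n : ℕ, ∃ d' ∈ D, ‖d'‖ ≤ ‖d‖ ∧ inner ℂ m d = inner ℂ m ((T ^ n) d') := by
      intro n
      induction n with
      | zero => exact ⟨d, hd, le_rfl, by simp⟩
      | succ n ih =>
        obtain ⟨d', hd', hn, he⟩ := ih
        obtain ⟨x, hx, d'', hd'', hdd, hn'⟩ := hdec d' hd'
        refine ⟨d'', hd'', hn'.trans hn, ?_⟩
        rw [he, hdd, map_add, inner_add_right, hm n x hx, zero_add, pow_succ,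
          LinearIsometryEquiv.coe_mul, Function.comp_apply]
    rw [← norm_le_zero_iff]
    refine le_of_forall_pos_le_add (fun ε hε => ?_)
    obtain ⟨n, hn⟩ := h4 m (ε / (2 * ‖d‖ + 1)) (by positivity)
    obtain ⟨_, ⟨v, rfl⟩, hn', he⟩ := hit n
    have hn'' : ‖Ω v‖ ≤ ‖d‖ := hn'
    have he' : inner ℂ m d = inner ℂ m ((T ^ n) (Ω (cproj b S v))) := by rw [h2]; exact he
    have h5 := hlow (cproj b S v) (fun t ht => inner_cproj_of_notMem b S v ht)
    rw [h2] at h5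
    rw [he', zero_add]
    refine (hn _).trans ?_
    rw [div_mul_eq_mul_div, div_le_iff₀ (by positivity)]
    exact mul_le_mul_of_nonneg_left (by linarith) hε.le
  have hcomp : ∀ m ∈ (span ℂ (Set.range f))ᗮ, ‖m‖ = 1 → ∀ᶠ n : ℕ in atTop,
      1 / 4 ≤ ∑ s ∈ Finset.range l, ‖inner ℂ ((T ^ n) m) (b s)‖ ^ 2 := by
    intro m hm hm0
    have hm1 : ∀ (n : ℤ) (i : ℕ), inner ℂ m ((T ^ n) (w i)) = 0 := fun n i =>
      inner_eq_zero_symm.mp ((Submodule.mem_orthogonal _ _).mp hm _ (subset_span ⟨(n, i), rfl⟩))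
    have hm2 : ∀ (n : ℤ), ∀ x ∈ W, inner ℂ m ((T ^ n) x) = 0 := by
      intro n x hx
      have e : ∀ y, inner ℂ m ((T ^ n) y) = inner ℂ ((T ^ n).symm m) y := by
        intro y
        rw [← (T ^ n).inner_map_map ((T ^ n).symm m) y, LinearIsometryEquiv.apply_symm_apply]
      rw [e]
      exact hwc _ (fun i => by rw [← e]; exact hm1 n i) x hx
    have hm3 : ∀ (n : ℕ), ∀ d ∈ D, inner ℂ ((T ^ n) m) d = 0 := by
      intro n
      refine hfwd _ (fun k x hx => ?_)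
      have e : (T ^ k) x = (T ^ n) ((T ^ ((k : ℤ) - n)) x) := by
        rw [← zpow_natCast T n, ← hzadd, ← zpow_natCast T k]
        congr 2
        ring
      rw [e, LinearIsometryEquiv.inner_map_map]
      exact hm2 _ x hx
    filter_upwards [h4' m] with n hn
    set u := (T ^ n) m with hu
    have hun : ‖u‖ = 1 := ((T ^ n).norm_map m).trans hm0
    have e1 : inner ℂ m ((T⁻¹ ^ n) (Ω' u)) = inner ℂ u (Ω' u) := by
      rw [← (T ^ n).inner_map_map, ← hu]
      congr 1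
      rw [inv_pow]
      simp
    have e0 : u = cproj b S u + cproj b S' u + ∑ s ∈ Finset.range l, inner ℂ (b s) u • b s := by
      refine basis_ext b (fun t => ?_)
      rw [inner_add_right, inner_add_right, inner_sum]
      simp only [inner_smul_right, basis_inner, mul_ite, mul_one, mul_zero, Finset.sum_ite_eq,
        Finset.mem_range]
      by_cases a1 : t ∈ S
      · have := (hl t).1 (Or.inl a1)
        rw [inner_cproj_of_mem b S u a1, inner_cproj_of_notMem b S' u (hd t a1),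
          if_neg (by omega)]
        simp
      · by_cases a2 : t ∈ S'
        · have := (hl t).1 (Or.inr a2)
          rw [inner_cproj_of_notMem b S u a1, inner_cproj_of_mem b S' u a2, if_neg (by omega)]
          simp
        · have : ¬ l ≤ t := fun h => ((hl t).2 h).elim a1 a2
          rw [inner_cproj_of_notMem b S u a1, inner_cproj_of_notMem b S' u a2, if_pos (by omega)]
          simp
    have e3 : inner ℂ u (Ω u) = 0 := hm3 n _ (hDmem u)
    have e2 : inner ℂ u u = inner ℂ u (Ω' u) -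
        inner ℂ u ((Ω u - cproj b S u) + (Ω' u - cproj b S' u)) +
        ∑ s ∈ Finset.range l, inner ℂ (b s) u * inner ℂ u (b s) := by
      have e4 : inner ℂ u u = inner ℂ u (cproj b S u) + inner ℂ u (cproj b S' u) +
          ∑ s ∈ Finset.range l, inner ℂ (b s) u * inner ℂ u (b s) := by
        conv_lhs => arg 3; rw [e0]
        rw [inner_add_right, inner_add_right, inner_sum]
        simp only [inner_smul_right]
      rw [inner_add_right, inner_sub_right, inner_sub_right, e3, e4]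
      ring
    have e5 : ‖inner ℂ u ((Ω u - cproj b S u) + (Ω' u - cproj b S' u))‖ ≤ 1 / 2 := by
      refine (norm_inner_le_norm _ _).trans ?_
      rw [hun, one_mul]
      refine (norm_add_le _ _).trans ?_
      have a1 := h1 u
      have a2 := h1' u
      rw [hun] at a1 a2
      linarith
    have e6 := hn u
    rw [e1, hun] at e6
    have e7 : ‖inner ℂ u u‖ = 1 := by
      rw [inner_self_eq_norm_sq_to_K, hun]
      simp
    have e8 : ‖∑ s ∈ Finset.range l, inner ℂ (b s) u * inner ℂ u (b s)‖ ≤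
        ∑ s ∈ Finset.range l, ‖inner ℂ u (b s)‖ ^ 2 := by
      refine (norm_sum_le _ _).trans (le_of_eq (Finset.sum_congr rfl fun s _ => ?_))
      rw [norm_mul, norm_inner_symm, sq]
    rw [e2] at e7
    have e9 := norm_add_le (inner ℂ u (Ω' u) -
        inner ℂ u ((Ω u - cproj b S u) + (Ω' u - cproj b S' u)))
        (∑ s ∈ Finset.range l, inner ℂ (b s) u * inner ℂ u (b s))
    have e10 := norm_sub_le (inner ℂ u (Ω' u))
        (inner ℂ u ((Ω u - cproj b S u) + (Ω' u - cproj b S' u)))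
    linarith
  refine ⟨f, hfon, fun n i => ?_, ?_⟩
  · show T ((T ^ n) (w i)) = (T ^ (n + 1)) (w i)
    rw [add_comm, hzadd, zpow_one]
  by_contra hfin
  obtain ⟨m, hm1, hm2, -⟩ := exists_onb b _ hfin
  obtain ⟨n, hn⟩ := ((Finset.range (4 * l + 1)).eventually_all.2
    (fun i _ => hcomp (m i) (hm1 i) (hm2.1 i))).exists
  have a1 := Finset.sum_le_sum hn
  rw [Finset.sum_comm] at a1
  have a2 : Orthonormal ℂ (fun i => (T ^ n) (m i)) := hm2.comp_linearIsometryEquiv (T ^ n)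
  have a3 : ∑ s ∈ Finset.range l, ∑ i ∈ Finset.range (4 * l + 1),
      ‖inner ℂ ((T ^ n) (m i)) (b s)‖ ^ 2 ≤ ∑ _s ∈ Finset.range l, (1 : ℝ) :=
    Finset.sum_le_sum fun s _ => by
      have := a2.sum_inner_products_le (s := Finset.range (4 * l + 1)) (b s)
      rwa [b.orthonormal.1 s, one_pow] at this
  have a4 := a1.trans a3
  simp only [Finset.sum_const, Finset.card_range, nsmul_eq_mul] at a4
  push_cast at a4
  linarith

theorem almost_of_entries (b : HilbertBasis ℕ ℂ H) (T : H ≃ₗᵢ[ℂ] H) (l : ℕ)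
    (hQ : ∀ t s : ℕ, (t ≤ s ∧ s % 3 ≠ 1 ∧ l ≤ s) ∨ (s ≤ t ∧ t % 3 ≠ 0 ∧ l ≤ t) →
      ‖inner ℂ (b t) (T (b s))‖ ≤ 1 / 64 * (1 / 2) ^ s * (1 / 2) ^ t) : AlmostShift T := by
  let S : Set ℕ := {s | s % 3 ≠ 1 ∧ l ≤ s}
  let R : Set ℕ := {s | s % 3 = 0 ∧ l ≤ s}
  let S' : Set ℕ := {s | s % 3 = 1 ∧ l ≤ s}
  have hRS : R ⊆ S := fun s (hs : s % 3 = 0 ∧ l ≤ s) => show s % 3 ≠ 1 ∧ l ≤ s by omega
  obtain ⟨A, hA1, hA2, hA3⟩ := exists_model b T S R (1 / 64) (by norm_num)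
    (fun s (hs : s % 3 ≠ 1 ∧ l ≤ s) t (hst : ¬ (s < t ∧ t % 3 = 0 ∧ l ≤ t)) =>
      hQ t s (by omega))
  obtain ⟨Ω, h1, h2, h3, h4⟩ := exists_wave b T S R hRS (4 * (1 / 64)) (by norm_num)
    (by norm_num) A hA1 hA2 hA3
  obtain ⟨A', hA1', hA2', hA3'⟩ := exists_model b T⁻¹ S' S' (1 / 64) (by norm_num)
    (fun s (hs : s % 3 = 1 ∧ l ≤ s) t (hst : ¬ (s < t ∧ t % 3 = 1 ∧ l ≤ t)) => by
      have e1 : inner ℂ (b t) (T⁻¹ (b s)) = inner ℂ (T (b t)) (b s) := by
        rw [← T.inner_map_map]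
        congr 1
        exact T.apply_symm_apply _
      rw [e1, norm_inner_symm, mul_right_comm]
      exact hQ s t (by omega))
  obtain ⟨Ω', h1', h2', h3', h4'⟩ := exists_wave b T⁻¹ S' S' subset_rfl (4 * (1 / 64))
    (by norm_num) (by norm_num) A' hA1' hA2' hA3'
  have h1'' : ∀ v, ‖Ω' v - cproj b S' v‖ ≤ 1 / 4 * ‖v‖ :=
    fun v => (h1' v).trans (le_of_eq (by norm_num))
  refine almost_of_waves b T S R S' l hRS ?_ (fun s (hs : s % 3 ≠ 1 ∧ l ≤ s) h => hs.1 h.1)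
    (fun s => ?_) Ω Ω' (fun v => (h1 v).trans (le_of_eq (by norm_num))) h2 h3 h4 h1''
    (decay_eventually b T⁻¹ S' Ω' h1'' h2' h3' h4')
  · refine Set.infinite_of_injective_forall_mem (f := fun k : ℕ => 3 * (k + l) + 2)
      (fun i j hij => by simpa using hij) (fun k => ⟨?_, ?_⟩)
    · show (3 * (k + l) + 2) % 3 ≠ 1 ∧ l ≤ 3 * (k + l) + 2
      omega
    · show ¬ ((3 * (k + l) + 2) % 3 = 0 ∧ l ≤ 3 * (k + l) + 2)
      omega
  · show (s % 3 ≠ 1 ∧ l ≤ s) ∨ (s % 3 = 1 ∧ l ≤ s) ↔ l ≤ s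
    omega

end Pool.Agent.Lib.MP_dd30de_lc
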