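import Pool.Agent.Lib.MP_dd30de_lc.FinRand

set_option autoImplicit false

/-!
Borel hulls by Lusin separation, and the rotation argument for unitaries with an eigenvalue.
-/

namespace Pool.Agent.Lib.MP_dd30de_lc

open Submodule Filter Topology InnerProductSpace MeasureTheory

variable {H : Type*} [NormedAddCommGroup H] [InnerProductSpace ℂ H]

theorem sot_eval (v : H) : Continuous[sotL H, _] fun u : H ≃ₗᵢ[ℂ] H => u v := by
  let _ : TopologicalSpace (H ≃ₗᵢ[ℂ] H) := sotL H
  have h0 : Continuous (fun u : H ≃ₗᵢ[ℂ] H => fun v : H => u v) := continuous_induced_dom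
  exact (continuous_apply v).comp h0

theorem sot_of {Ω : Type*} [TopologicalSpace Ω] {X : Ω → H ≃ₗᵢ[ℂ] H}
    (h : ∀ v, Continuous fun ω => X ω v) : Continuous[_, sotL H] X :=
  continuous_induced_rng.2 (continuous_pi h)

theorem cont_app {Ω : Type*} [TopologicalSpace Ω] {X : Ω → H ≃ₗᵢ[ℂ] H} {v : Ω → H}
    (h : ∀ v, Continuous fun ω => X ω v) (hv : Continuous v) : Continuous fun ω => X ω (v ω) := by
  refine continuous_iff_continuousAt.2 fun a => Metric.continuousAt_iff'.2 fun ε hε => ?_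
  filter_upwards [Metric.continuousAt_iff'.1 (h (v a)).continuousAt (ε / 2) (by positivity),
    Metric.continuousAt_iff'.1 hv.continuousAt (ε / 2) (by positivity)] with ω h1 h2
  have a1 := dist_triangle (X ω (v ω)) (X ω (v a)) (X a (v a))
  rw [(X ω).dist_map] at a1
  linarith

theorem cont_inv {Ω : Type*} [TopologicalSpace Ω] {X : Ω → H ≃ₗᵢ[ℂ] H}
    (h : ∀ v, Continuous fun ω => X ω v) (v : H) : Continuous fun ω => (X ω)⁻¹ v := by
  refine continuous_iff_continuousAt.2 fun a => Metric.continuousAt_iff'.2 fun ε hε => ?_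
  filter_upwards [Metric.continuousAt_iff'.1 (h ((X a).symm v)).continuousAt ε hε] with ω h1
  rw [← (X ω).dist_map, dist_comm]
  simpa using h1

theorem sep_of_basis (e : HilbertBasis ℕ ℂ H) : SecondCountableTopology H := by
  have h1 := ((Set.countable_range e).isSeparable.span (R := ℂ)).closure
  rw [← Submodule.topologicalClosure_coe, e.dense_span] at h1
  have := TopologicalSpace.isSeparable_univ_iff.1 h1
  exact UniformSpace.secondCountable_of_separable H

theorem mem_closure_nat {E : Type*} [PseudoMetricSpace E] {s : Set E} {x : E} :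
    x ∈ closure s ↔ ∀ d : ℕ, ∃ y ∈ s, dist x y < 1 / ((d : ℝ) + 1) := by
  rw [Metric.mem_closure_iff]
  refine ⟨fun h d => h _ Nat.one_div_pos_of_nat, fun h ε hε => ?_⟩
  obtain ⟨d, hd⟩ := exists_nat_one_div_lt hε
  obtain ⟨y, h1, h2⟩ := h d
  exact ⟨y, h1, h2.trans hd⟩

theorem eig_norm {U : H ≃ₗᵢ[ℂ] H} {w : H} {c : ℂ} (hw : w ≠ 0) (h : U w = c • w) :
    (starRingEnd ℂ) c * c = 1 := by
  have h1 := U.norm_map w
  rw [h, norm_smul] at h1
  have h2 : ‖c‖ = 1 := mul_right_cancel₀ (norm_ne_zero_iff.2 hw) (h1.trans (one_mul _).symm)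
  rw [RCLike.conj_mul, h2]
  simp

theorem eig_countable (e : HilbertBasis ℕ ℂ H) (U : H ≃ₗᵢ[ℂ] H) :
    {c : ℂ | ∃ w, w ≠ 0 ∧ U w = c • w}.Countable := by
  have h0 : ∀ c : {c : ℂ | ∃ w, w ≠ 0 ∧ U w = c • w}, ∃ w, ‖w‖ = 1 ∧ U w = c.1 • w := by
    rintro ⟨c, w, h1, h2⟩
    refine ⟨((‖w‖ : ℂ)⁻¹) • w, norm_smul_inv_norm h1, ?_⟩
    show U _ = c • _
    rw [map_smul, h2, smul_comm]
  choose w h1 h2 using h0
  have h3 : ∀ c, w c ≠ 0 := fun c h => by simpa [h] using h1 c
  have h4 : Orthonormal ℂ w := by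
    refine ⟨h1, fun c d hcd => ?_⟩
    have a1 := U.inner_map_map (w c) (w d)
    rw [h2, h2, inner_smul_left, inner_smul_right, ← mul_assoc] at a1
    by_contra a2
    have a3 := mul_right_cancel₀ a2 (a1.trans (one_mul _).symm)
    have a4 := eig_norm (h3 c) (h2 c)
    refine hcd (Subtype.ext ?_)
    linear_combination (d.1 : ℂ) * a4 - c.1 * a3
  have h5 := Set.countable_iUnion fun m : ℕ => (h4.inner_products_summable (e m)).countable_support
  rw [← Set.countable_coe_iff, ← Set.countable_univ_iff]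
  refine h5.mono fun c _ => ?_
  by_contra a1
  refine h3 c (basis_ext e fun t => ?_)
  rw [inner_zero_right, inner_eq_zero_symm]
  by_contra a2
  exact a1 (Set.mem_iUnion.2 ⟨t, by simpa using a2⟩)

/-- Scalar rotations. -/
noncomputable def rot (H : Type*) [NormedAddCommGroup H] [InnerProductSpace ℂ H] (t : ℝ) :
    H ≃ₗᵢ[ℂ] H :=
  ⟨LinearEquiv.smulOfNeZero ℂ H (Complex.exp (t * Complex.I)) (Complex.exp_ne_zero _), fun v => by
    show ‖Complex.exp (t * Complex.I) • v‖ = ‖v‖
    rw [norm_smul, Complex.norm_exp_ofReal_mul_I, one_mul]⟩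

theorem rot_apply (t : ℝ) (v : H) : rot H t v = Complex.exp (t * Complex.I) • v := rfl

variable [CompleteSpace H]

/-- There is a Borel hull with a witness measure. -/
def Hull (A : Set (H ≃ₗᵢ[ℂ] H)) : Prop :=
  ∃ B : Set (H ≃ₗᵢ[ℂ] H), @MeasurableSet _ (@borel _ (sotL H)) B ∧ A ⊆ B ∧
    ∃ μ : @Measure (H ≃ₗᵢ[ℂ] H) (@borel _ (sotL H)),
      @IsProbabilityMeasure _ (@borel _ (sotL H)) μ ∧
        ∀ g h : H ≃ₗᵢ[ℂ] H, μ {x | g * x * h ∈ B} = 0

theorem hull_eig (e : HilbertBasis ℕ ℂ H) (c : ℂ) :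
    Hull {T : H ≃ₗᵢ[ℂ] H | ∃ w, w ≠ 0 ∧ T w = c • w} := by
  let _ : TopologicalSpace (H ≃ₗᵢ[ℂ] H) := sotL H
  let _ : MeasurableSpace (H ≃ₗᵢ[ℂ] H) := borel _
  have : BorelSpace (H ≃ₗᵢ[ℂ] H) := ⟨rfl⟩
  let B : Set (H ≃ₗᵢ[ℂ] H) := (⋂ m : ℕ, ⋂ d : ℕ, ⋃ v : H,
    {T | dist (e m) (T v - c • v) < 1 / ((d : ℝ) + 1)})ᶜ ∩ {_T | (starRingEnd ℂ) c * c = 1}
  have hB : MeasurableSet B :=
    (MeasurableSet.iInter fun m => MeasurableSet.iInter fun d => (isOpen_iUnion fun v =>
      isOpen_lt (continuous_const.dist ((sot_eval v).sub continuous_const))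
        continuous_const).measurableSet).compl.inter (MeasurableSet.const _)
  have hrot : Continuous (rot H) := sot_of fun v => by
    simp only [rot_apply]
    fun_prop
  have : IsProbabilityMeasure ((volume : Measure ℝ).restrict (Set.Icc 0 1)) := ⟨by simp⟩
  refine ⟨B, hB, ?_, (volume.restrict (Set.Icc 0 1)).map (rot H),
    Measure.isProbabilityMeasure_map hrot.measurable.aemeasurable, fun g h => ?_⟩
  · rintro T ⟨w, h1, h2⟩
    have h3 := eig_norm h1 h2
    refine ⟨fun h4 => h1 (basis_ext e fun m => ?_), h3⟩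
    have h5 : e m ∈ closure (Set.range fun v => T v - c • v) := mem_closure_nat.2 fun d => by
      obtain ⟨v, hv⟩ := Set.mem_iUnion.1 (Set.mem_iInter.1 (Set.mem_iInter.1 h4 m) d)
      exact ⟨_, ⟨v, rfl⟩, hv⟩
    have h6 : IsClosed {y : H | inner ℂ w y = 0} := isClosed_eq (by fun_prop) continuous_const
    rw [inner_zero_right, inner_eq_zero_symm]
    refine h6.closure_subset_iff.2 ?_ h5
    rintro _ ⟨v, rfl⟩
    have a1 := T.inner_map_map w v
    rw [h2, inner_smul_left] at a1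
    show inner ℂ w (T v - c • v) = 0
    rw [inner_sub_right, inner_smul_right]
    linear_combination c * a1 - inner ℂ w (T v) * h3
  · have hc : Continuous fun x : H ≃ₗᵢ[ℂ] H => g * x * h :=
      sot_of fun v => g.continuous.comp (sot_eval (h v))
    have hm : MeasurableSet {x | g * x * h ∈ B} := hc.measurable hB
    rw [Measure.map_apply hrot.measurable hm]
    refine Set.Countable.measure_zero ?_ _
    have h1 := (Complex.countable_preimage_exp.2
      ((eig_countable e (g * h)).image fun z => c / z)).preimage_of_injOn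
      (f := fun t : ℝ => (t : ℂ) * Complex.I) fun s _ t _ h => by simpa using h
    refine h1.mono fun t ht => ?_
    obtain ⟨h2, h3⟩ := ht
    have h3' : (starRingEnd ℂ) c * c = 1 := h3
    set T := g * rot H t * h with hT
    let L : H →ₗ[ℂ] H := (T.toLinearEquiv : H →ₗ[ℂ] H) - c • LinearMap.id
    have h4 : (LinearMap.range L)ᗮ ≠ ⊥ := fun h4 => h2 (by
      refine Set.mem_iInter.2 fun m => Set.mem_iInter.2 fun d => ?_
      have a1 : e m ∈ closure (LinearMap.range L : Set H) := by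
        rw [← Submodule.topologicalClosure_coe, Submodule.topologicalClosure_eq_top_iff.2 h4]
        trivial
      obtain ⟨_, ⟨v, rfl⟩, hv⟩ := mem_closure_nat.1 a1 d
      exact Set.mem_iUnion.2 ⟨v, hv⟩)
    obtain ⟨w, h5, h6⟩ := Submodule.exists_mem_ne_zero_of_ne_bot h4
    have h7 : T w = c • w := by
      refine ext_inner_right ℂ fun y => ?_
      obtain ⟨v, rfl⟩ := T.surjective y
      have a1 : inner ℂ w (T v - c • v) = 0 :=
        inner_eq_zero_symm.1 ((Submodule.mem_orthogonal _ _).1 h5 _ ⟨v, rfl⟩)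
      rw [inner_sub_right, inner_smul_right] at a1
      rw [T.inner_map_map, inner_smul_left]
      linear_combination -(starRingEnd ℂ) c * a1 - inner ℂ w v * h3'
    have h8 : Complex.exp (t * Complex.I) • (g * h) w = c • w := by
      rw [← h7]
      exact (g.map_smul _ _).symm
    have h9 := Complex.exp_ne_zero (t * Complex.I)
    have h10 : c ≠ 0 := fun h => by simp [h] at h3'
    refine ⟨c / Complex.exp (t * Complex.I), ⟨w, h6, ?_⟩, by field_simp⟩
    rw [div_eq_inv_mul, mul_smul, ← h8, inv_smul_smul₀ h9]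

theorem exists_param (e : HilbertBasis ℕ ℂ H) :
    ∃ (β : Type) (_ : TopologicalSpace β) (_ : PolishSpace β) (Φ : β → H ≃ₗᵢ[ℂ] H),
      (∀ v, Continuous fun b => Φ b v) ∧ Function.Surjective Φ := by
  have := sep_of_basis e
  borelize H
  have h1 : MeasurableSet {a : ℕ → H | Orthonormal ℂ a ∧
      ∀ m, e m ∈ closure (span ℂ (Set.range a) : Set H)} := by
    refine MeasurableSet.inter (s₁ := {a : ℕ → H | Orthonormal ℂ a})
      (s₂ := {a : ℕ → H | ∀ m, e m ∈ closure (span ℂ (Set.range a) : Set H)})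
      (IsClosed.measurableSet ?_) ?_
    · have : {a : ℕ → H | Orthonormal ℂ a} =
          ⋂ i, ⋂ j, {a | inner ℂ (a i) (a j) = if i = j then (1 : ℂ) else 0} := by
        ext a
        simp [orthonormal_iff_ite]
      rw [this]
      exact isClosed_iInter fun i => isClosed_iInter fun j =>
        isClosed_eq (by fun_prop) continuous_const
    · have : {a : ℕ → H | ∀ m, e m ∈ closure (span ℂ (Set.range a) : Set H)} =
          ⋂ m : ℕ, ⋂ d : ℕ, ⋃ c : ℕ →₀ ℂ,
            {a | dist (e m) (∑ i ∈ c.support, c i • a i) < 1 / ((d : ℝ) + 1)} := by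
        ext a
        simp only [Set.mem_ofPred_eq, mem_closure_nat, Set.mem_iInter, Set.mem_iUnion,
          SetLike.mem_coe, Finsupp.mem_span_range_iff_exists_finsupp]
        exact forall₂_congr fun m d =>
          ⟨fun ⟨_, ⟨c, rfl⟩, h⟩ => ⟨c, h⟩, fun ⟨c, h⟩ => ⟨_, ⟨c, rfl⟩, h⟩⟩
      rw [this]
      exact MeasurableSet.iInter fun m => MeasurableSet.iInter fun d =>
        (isOpen_iUnion fun c => isOpen_lt (by fun_prop) continuous_const).measurableSet
  obtain ⟨β, _, _, f, hf, hr⟩ := analyticSet_iff_exists_polishSpace_range.1 h1.analyticSet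
  have h2 : ∀ b, ∃ x : H ≃ₗᵢ[ℂ] H, ∀ n, x (e n) = f b n := fun b => by
    obtain ⟨a1, a2⟩ := hr.subset ⟨b, rfl⟩
    have a3 : ⊤ ≤ (span ℂ (Set.range (f b))).topologicalClosure := by
      rw [← e.dense_span]
      refine Submodule.topologicalClosure_minimal _ (span_le.2 ?_)
        (Submodule.isClosed_topologicalClosure _)
      rintro _ ⟨m, rfl⟩
      exact a2 m
    exact ⟨e.repr.trans (HilbertBasis.mk a1 a3).repr.symm, fun n => by
      rw [repr_trans_apply, HilbertBasis.coe_mk]⟩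
  choose Φ hΦ using h2
  refine ⟨β, inferInstance, inferInstance, Φ, cont_of_basis e Φ fun n => ?_, fun x => ?_⟩
  · simp only [hΦ]
    exact (continuous_apply n).comp hf
  · obtain ⟨a, ha⟩ := exists_basis e x.symm id fun _ => rfl
    have h3 : ∀ i, a i = x (e i) := fun i => by
      rw [← x.apply_symm_apply (a i), ha]
      rfl
    obtain ⟨b, hb⟩ : (a : ℕ → H) ∈ Set.range f := hr.superset ⟨a.orthonormal, fun m => by
      rw [← Submodule.topologicalClosure_coe, a.dense_span]
      trivial⟩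
    refine ⟨b, LinearIsometryEquiv.ext fun v => DFunLike.congr_fun (clm_ext_basis e
      (Φ b).toContinuousLinearEquiv x.toContinuousLinearEquiv fun i => ?_) v⟩
    show Φ b (e i) = x (e i)
    rw [hΦ, hb, h3]

theorem hull_analytic (e : HilbertBasis ℕ ℂ H) (A : Set (H ≃ₗᵢ[ℂ] H))
    (hA : @AnalyticSet _ (sotL H) A) (h : ∀ T ∈ A, ¬ AlmostShift T) : Hull A := by
  let _ : TopologicalSpace (H ≃ₗᵢ[ℂ] H) := sotL H
  let _ : MeasurableSpace (H ≃ₗᵢ[ℂ] H) := borel _
  have : BorelSpace (H ≃ₗᵢ[ℂ] H) := ⟨rfl⟩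
  have : T2Space (H ≃ₗᵢ[ℂ] H) :=
    T2Space.of_injective_continuous (f := fun u : H ≃ₗᵢ[ℂ] H => fun v : H => u v)
      (fun _ _ h => LinearIsometryEquiv.ext fun v => congrFun h v) continuous_induced_dom
  obtain ⟨β, _, _, Φ, h1, h2⟩ := exists_param e
  let Z : ℕ → Set (β × β) := fun l => ⋂ t : ℕ, ⋂ s : ℕ,
    ⋂ _ : (t ≤ s ∧ s % 3 ≠ 1 ∧ l ≤ s) ∨ (s ≤ t ∧ t % 3 ≠ 0 ∧ l ≤ t),
      {p | ‖inner ℂ (Φ p.1 (e t)) (Φ p.2 (Φ p.1 (e s)))‖ ≤ 1 / 64 * (1 / 2) ^ s * (1 / 2) ^ t}
  have hZ : ∀ l, IsClosed (Z l) := fun l =>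
    isClosed_iInter fun t => isClosed_iInter fun s => isClosed_iInter fun _ =>
      isClosed_le (((h1 _).comp continuous_fst).inner (cont_app (X := fun p : β × β => Φ p.2)
        (fun v => (h1 v).comp continuous_snd) ((h1 _).comp continuous_fst))).norm continuous_const
  have hE : AnalyticSet {T | Ent e T} := by
    have : {T | Ent e T} = ⋃ l, (fun p : β × β => Φ p.2) '' Z l := by
      ext T
      simp only [Z, Set.mem_iUnion, Set.mem_image, Set.mem_iInter, Set.mem_ofPred_eq]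
      constructor
      · rintro ⟨l, k, hk⟩
        obtain ⟨a, rfl⟩ := h2 k
        obtain ⟨b, rfl⟩ := h2 T
        exact ⟨l, (a, b), hk, rfl⟩
      · rintro ⟨l, p, hp, rfl⟩
        exact ⟨l, Φ p.1, hp⟩
    rw [this]
    exact AnalyticSet.iUnion fun l => (hZ l).analyticSet.image_of_continuous
      (sot_of fun v => (h1 v).comp continuous_snd)
  obtain ⟨B, a1, a2, a3⟩ := hA.measurablySeparable hE
    (Set.disjoint_left.2 fun T hT hT' => h T hT (Ent.almost hT'))
  obtain ⟨μ, b1, b2⟩ := exists_witness e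
  exact ⟨B, a3, a1, μ, b1, fun g k =>
    measure_mono_null (fun x hx hx' => Set.disjoint_left.1 a2 hx' hx) (b2 g k)⟩

theorem hull_class (e : HilbertBasis ℕ ℂ H) (a : H ≃ₗᵢ[ℂ] H) (ha : ¬ IsMultishift a) :
    Hull {x | ∃ v, x = v * a * v⁻¹} := by
  by_cases h : AlmostShift a
  · obtain ⟨f, h1, h2, h3⟩ := h
    have h4 : (span ℂ (Set.range f))ᗮ ≠ ⊥ := fun h4 =>
      ha ⟨HilbertBasis.mkOfOrthogonalEqBot h1 h4, fun n i => by
        rw [HilbertBasis.coe_mkOfOrthogonalEqBot]
        exact h2 n i⟩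
    have := Submodule.nontrivial_iff_ne_bot.2 h4
    have h5 : ∀ m ∈ (span ℂ (Set.range f))ᗮ,
        (a.toLinearEquiv : H →ₗ[ℂ] H) m ∈ (span ℂ (Set.range f))ᗮ := fun m hm =>
      (Submodule.mem_orthogonal' _ _).2 fun u hu => inner_eq_zero_of_mem_span (by
        rintro _ ⟨⟨n, i⟩, rfl⟩
        have b1 := h2 (n - 1) i
        rw [sub_add_cancel] at b1
        rw [← b1]
        exact (a.inner_map_map _ _).trans
          ((Submodule.mem_orthogonal' _ _).1 hm _ (subset_span ⟨_, rfl⟩))) hu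
    obtain ⟨c, hc⟩ := Module.End.exists_eigenvalue (LinearMap.restrict _ h5)
    obtain ⟨w, hw⟩ := hc.exists_hasEigenvector
    have h6 : a w = c • (w : H) := congrArg Subtype.val hw.apply_eq_smul
    obtain ⟨B, b1, b2, b3⟩ := hull_eig e c
    refine ⟨B, b1, fun x hx => b2 ?_, b3⟩
    obtain ⟨v, rfl⟩ := hx
    refine ⟨v w, fun h => hw.2 (Subtype.ext (v.injective (h.trans (map_zero v).symm))), ?_⟩
    rw [← map_smul, ← h6]
    exact congrArg (fun y => v (a y)) (v.symm_apply_apply w)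
  · obtain ⟨β, _, _, Φ, h1, h2⟩ := exists_param e
    refine hull_analytic e _ ?_ ?_
    · have : {x | ∃ v, x = v * a * v⁻¹} = Set.range fun b => Φ b * a * (Φ b)⁻¹ := by
        ext x
        constructor
        · rintro ⟨v, rfl⟩
          obtain ⟨b, rfl⟩ := h2 v
          exact ⟨b, rfl⟩
        · rintro ⟨b, rfl⟩
          exact ⟨_, rfl⟩
      rw [this]
      exact @analyticSet_range_of_polishSpace _ (sotL H) _ _ _ _
        (sot_of fun v => cont_app (X := Φ) (v := fun b => a ((Φ b)⁻¹ v)) h1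
          (a.continuous.comp (cont_inv h1 v)))
    · rintro _ ⟨v, rfl⟩ ⟨f, b1, b2, b3⟩
      refine h ⟨fun p => v.symm (f p), b1.comp_linearIsometryEquiv v.symm, fun n i => ?_, ?_⟩
      · show _ = v.symm (f (n + 1, i))
        rw [← b2]
        exact (v.symm_apply_apply _).symm
      · refine FiniteDimensional.of_injective (LinearMap.restrict
          (v.toLinearEquiv : H →ₗ[ℂ] H) (q := (span ℂ (Set.range f))ᗮ) fun m hm => ?_) ?_
        · refine (Submodule.mem_orthogonal' _ _).2 fun u hu => inner_eq_zero_of_mem_span ?_ hu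
          rintro _ ⟨p, rfl⟩
          rw [← v.apply_symm_apply (f p)]
          exact (v.inner_map_map _ _).trans
            ((Submodule.mem_orthogonal' _ _).1 hm _ (subset_span ⟨_, rfl⟩))
        · exact fun x y hxy => Subtype.ext (v.injective (congrArg Subtype.val hxy))

end Pool.Agent.Lib.MP_dd30de_lc
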