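import Pool.Agent.Lib.MP_dd30de_lc.FinLP
import Pool.Agent.Lib.MP_dd30de_lc.Catcher

set_option autoImplicit false

/-!
A random permutation matrix all of whose translates are almost surely bilateral shifts of
infinite multiplicity on a subspace of finite codimension.
-/

namespace Pool.Agent.Lib.MP_dd30de_lc

open Submodule Filter Topology InnerProductSpace MeasureTheory ProbabilityTheory

/-- Bound for the number of indices met before step `n`. -/
def Pn : ℕ → ℕ
  | 0 => 1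
  | n + 1 => Pn n + 1 + 8192 * 8 ^ n * Pn n

/-- Number of choices at step `n`. -/
def mm (n : ℕ) : ℕ := 8192 * 8 ^ n * Pn n

theorem Pn_pos (n : ℕ) : 0 < Pn n := by
  cases n with
  | zero => exact Nat.one_pos
  | succ n => rw [Pn]; omega

theorem Pn_eq (n : ℕ) : Pn n = n + 1 + ∑ i ∈ Finset.range n, mm i := by
  induction n with
  | zero => rfl
  | succ n ih =>
    rw [Finset.sum_range_succ, Pn, mm]
    omega

/-- The index chosen for `t`, of residue `p`. -/
def cd (p t j : ℕ) : ℕ := 3 * Nat.pair t j + 3 + p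

/-- Decoding of `t`. -/
def dec (n : ℕ) : ℕ := (Nat.unpair ((n - 3) / 3)).1

theorem dec_cd {p : ℕ} (hp : p ≤ 1) (t j : ℕ) : dec (cd p t j) = t := by
  rw [dec, cd, show (3 * Nat.pair t j + 3 + p - 3) / 3 = Nat.pair t j by omega, Nat.unpair_pair]

theorem cd_inj (p t : ℕ) : Function.Injective (cd p t) := by
  intro i j h
  have : Nat.pair t i = Nat.pair t j := by
    simp only [cd] at h
    omega
  exact (Nat.pair_eq_pair.1 this).2

/-- One step of the product of disjoint transpositions. -/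
def sw0 (p n j k : ℕ) : ℕ :=
  if n % 3 ≠ p then cd p n j else if dec n % 3 ≠ p ∧ cd p (dec n) k = n then dec n else n

/-- The product of disjoint transpositions. -/
def sw (p : ℕ) (ω : ℕ → ℕ) (n : ℕ) : ℕ := sw0 p n (ω (2 * n + p)) (ω (2 * dec n + p))

theorem sw_of_ne {p n : ℕ} (ω : ℕ → ℕ) (h : n % 3 ≠ p) : sw p ω n = cd p n (ω (2 * n + p)) :=
  if_pos h

theorem sw_sw {p : ℕ} (hp : p ≤ 1) (ω : ℕ → ℕ) (n : ℕ) : sw p ω (sw p ω n) = n := by
  by_cases h : n % 3 ≠ p
  · rw [sw_of_ne ω h, sw, sw0, if_neg (by rw [cd]; omega), dec_cd hp, if_pos ⟨h, rfl⟩]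
  · by_cases h2 : dec n % 3 ≠ p ∧ cd p (dec n) (ω (2 * dec n + p)) = n
    · have : sw p ω n = dec n := by rw [sw, sw0, if_neg h, if_pos h2]
      rw [this, sw_of_ne ω h2.1, h2.2]
    · have : sw p ω n = n := by rw [sw, sw0, if_neg h, if_neg h2]
      rw [this, this]

theorem sw_le {p n : ℕ} (ω : ℕ → ℕ) (h : n % 3 = p) : sw p ω n ≤ n := by
  rw [sw, sw0, if_neg (not_not.2 h)]
  split_ifs with h2
  · have := Nat.left_le_pair (dec n) (ω (2 * dec n + p))
    have h3 := h2.2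
    rw [cd] at h3
    omega
  · exact le_rfl

theorem sw_cont (p : ℕ) : Continuous fun q : (ℕ → ℕ) × ℕ => sw p q.1 q.2 := by
  refine continuous_prod_of_discrete_right.2 fun n => ?_
  have h1 : Continuous fun r : ℕ × ℕ => sw0 p n r.1 r.2 := continuous_of_discreteTopology
  have h2 : Continuous fun ω : ℕ → ℕ => (ω (2 * n + p), ω (2 * dec n + p)) :=
    (continuous_apply (2 * n + p)).prodMk (continuous_apply (2 * dec n + p))
  exact h1.comp h2

/-- The indices that can be met before step `n`. -/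
def Old (n : ℕ) : Finset ℕ :=
  Finset.range (n + 1) ∪
    (Finset.range n).biUnion fun i => (Finset.range (mm i)).image (cd (i % 2) (i / 2))

theorem card_Old (n : ℕ) : (Old n).card ≤ Pn n := by
  rw [Pn_eq]
  refine (Finset.card_union_le _ _).trans ?_
  rw [Finset.card_range]
  refine Nat.add_le_add_left (Finset.card_biUnion_le.trans (Finset.sum_le_sum fun i _ => ?_)) _
  exact Finset.card_image_le.trans (Finset.card_range _).le

theorem sw_mem {p n k : ℕ} (hp : p ≤ 1) {ω : ℕ → ℕ} (hω : ∀ i, ω i < mm i) (hn : n ≤ k)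
    (h : n % 3 = p ∨ 2 * n + p < k) : sw p ω n ∈ Old k := by
  by_cases h1 : n % 3 = p
  · have := sw_le ω h1
    exact Finset.mem_union_left _ (Finset.mem_range.2 (by omega))
  · refine Finset.mem_union_right _ (Finset.mem_biUnion.2 ⟨2 * n + p,
      Finset.mem_range.2 (h.resolve_left h1), Finset.mem_image.2 ⟨ω _, Finset.mem_range.2 (hω _), ?_⟩⟩)
    rw [sw_of_ne ω h1, show (2 * n + p) % 2 = p by omega, show (2 * n + p) / 2 = n by omega]

variable {H : Type*} [NormedAddCommGroup H] [InnerProductSpace ℂ H]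

/-- The choice `j` at step `n` meets only small matrix entries of `g`. -/
def Good (e : HilbertBasis ℕ ℂ H) (g : H ≃ₗᵢ[ℂ] H) (n j : ℕ) : Prop :=
  ∀ r ∈ Old n, ‖inner ℂ (e (cd (n % 2) (n / 2) j)) (g (e r))‖ ≤ 1 / 64 * (1 / 2) ^ n ∧
    ‖inner ℂ (e r) (g (e (cd (n % 2) (n / 2) j)))‖ ≤ 1 / 64 * (1 / 2) ^ n

theorem card_big {a : ℕ → H} (ha : Orthonormal ℂ a) (u : H) (hu : ‖u‖ = 1) (n : ℕ)
    (s : Finset ℕ) (hs : ∀ j ∈ s, 1 / 64 * (1 / 2) ^ n < ‖inner ℂ (a j) u‖) :
    s.card ≤ 4096 * 4 ^ n := by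
  have h1 := ha.sum_inner_products_le (s := s) u
  rw [hu, one_pow] at h1
  have h2 : s.card • ((1 / 64 * (1 / 2) ^ n : ℝ) ^ 2) ≤ ∑ j ∈ s, ‖inner ℂ (a j) u‖ ^ 2 :=
    Finset.card_nsmul_le_sum _ _ _ fun j hj =>
      pow_le_pow_left₀ (by positivity) (hs j hj).le 2
  have h3 : ((1 / 64 * (1 / 2) ^ n : ℝ) ^ 2) * (4096 * 4 ^ n) = 1 := by
    rw [mul_pow, ← pow_mul, mul_comm n 2, pow_mul, mul_mul_mul_comm, ← mul_pow]
    norm_num
  rw [nsmul_eq_mul] at h2
  have h4 : (s.card : ℝ) ≤ 4096 * 4 ^ n := by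
    calc (s.card : ℝ) = s.card * ((1 / 64 * (1 / 2) ^ n : ℝ) ^ 2) * (4096 * 4 ^ n) := by
          rw [mul_assoc, h3, mul_one]
      _ ≤ 1 * (4096 * 4 ^ n) := mul_le_mul_of_nonneg_right (h2.trans h1) (by positivity)
      _ = _ := one_mul _
  exact_mod_cast h4

open Classical in
theorem card_bad (e : HilbertBasis ℕ ℂ H) (g : H ≃ₗᵢ[ℂ] H) (n : ℕ) :
    ((Finset.range (mm n)).filter fun j => ¬ Good e g n j).card ≤ Pn n * (8192 * 4 ^ n) := by
  have ha : Orthonormal ℂ fun j => e (cd (n % 2) (n / 2) j) :=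
    e.orthonormal.comp _ (cd_inj _ _)
  let F : ℕ → Finset ℕ := fun r =>
    ((Finset.range (mm n)).filter fun j =>
      1 / 64 * (1 / 2) ^ n < ‖inner ℂ (e (cd (n % 2) (n / 2) j)) (g (e r))‖) ∪
    ((Finset.range (mm n)).filter fun j =>
      1 / 64 * (1 / 2) ^ n < ‖inner ℂ (g (e (cd (n % 2) (n / 2) j))) (e r)‖)
  have h1 : ((Finset.range (mm n)).filter fun j => ¬ Good e g n j) ⊆ (Old n).biUnion F := by
    intro j hj
    obtain ⟨h1, h2⟩ := Finset.mem_filter.1 hj
    simp only [Good, not_forall, not_and_or, not_le] at h2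
    obtain ⟨r, hr, h3⟩ := h2
    refine Finset.mem_biUnion.2 ⟨r, hr, Finset.mem_union.2 (h3.imp
      (fun h => Finset.mem_filter.2 ⟨h1, h⟩) fun h => Finset.mem_filter.2 ⟨h1, ?_⟩)⟩
    rwa [norm_inner_symm]
  refine (Finset.card_le_card h1).trans ((Finset.card_biUnion_le_card_mul _ _ _ fun r _ => ?_).trans
    (Nat.mul_le_mul_right _ (card_Old n)))
  refine (Finset.card_union_le _ _).trans ((Nat.add_le_add
    (card_big ha (g (e r)) ((g.norm_map _).trans (e.orthonormal.1 r)) n _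
      fun j hj => (Finset.mem_filter.1 hj).2)
    (card_big (ha.comp_linearIsometryEquiv g) (e r) (e.orthonormal.1 r) n _
      fun j hj => (Finset.mem_filter.1 hj).2)).trans (by omega))

theorem mm_pos (n : ℕ) : 0 < mm n := by
  have := Pn_pos n
  rw [mm]
  positivity

/-- The law of the choice at step `n`. -/
noncomputable def lw (n : ℕ) : Measure ℕ := uniformOn (Finset.range (mm n) : Set ℕ)

instance (n : ℕ) : IsProbabilityMeasure (lw n) :=
  isProbabilityMeasure_uniformOn (Finset.finite_toSet _) ⟨0, by simpa using mm_pos n⟩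

theorem lw_bad (e : HilbertBasis ℕ ℂ H) (g : H ≃ₗᵢ[ℂ] H) (n : ℕ) :
    lw n {j | ¬ Good e g n j} ≤ 2⁻¹ ^ n := by
  classical
  have h1 : ((Finset.range (mm n) : Set ℕ) ∩ {j | ¬ Good e g n j}) =
      ((Finset.range (mm n)).filter fun j => ¬ Good e g n j : Finset ℕ) := by
    ext j
    simp
  rw [lw, ← uniformOn_inter_self (Finset.finite_toSet _), h1, uniformOn_apply_finset,
    Finset.card_range]
  have h2 : (Finset.range (mm n) ∩ (Finset.range (mm n)).filter fun j => ¬ Good e g n j).card * 2 ^ n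
      ≤ mm n := by
    refine (Nat.mul_le_mul_right _ ((Finset.card_le_card Finset.inter_subset_right).trans
      (card_bad e g n))).trans (le_of_eq ?_)
    rw [mm, show 8 = 4 * 2 by rfl, mul_pow]
    ring
  refine ENNReal.div_le_of_le_mul ?_
  rw [← ENNReal.inv_pow, mul_comm, ← div_eq_mul_inv,
    ENNReal.le_div_iff_mul_le (Or.inl (by positivity)) (Or.inl (by finiteness))]
  exact_mod_cast h2

theorem ae_good (e : HilbertBasis ℕ ℂ H) (g : H ≃ₗᵢ[ℂ] H) :
    ∀ᵐ ω ∂Measure.infinitePi lw, ∃ l, ∀ n, ω n < mm n ∧ (l ≤ n → Good e g n (ω n)) := by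
  have h0 : ∀ n (s : Set ℕ), Measure.infinitePi lw {ω | ω n ∈ s} = lw n s := fun n s =>
    (measurePreserving_eval_infinitePi lw n).measure_preimage
      (MeasurableSet.of_discrete (s := s)).nullMeasurableSet
  have h1 : ∀ᵐ ω ∂Measure.infinitePi lw, ∀ n, ω n < mm n := by
    refine ae_all_iff.2 fun n => ?_
    refine (h0 n {j | ¬ j < mm n}).trans ((uniformOn_eq_zero_iff (Finset.finite_toSet _)).2 ?_)
    ext j
    simp
  have h2 := ae_eventually_notMem (μ := Measure.infinitePi lw)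
    (s := fun n => {ω | ω n ∈ {j | ¬ Good e g n j}}) (by
      refine ne_top_of_le_ne_top ?_
        (ENNReal.tsum_le_tsum fun n => (h0 n _).le.trans (lw_bad e g n))
      rw [ENNReal.tsum_geometric]
      simp)
  filter_upwards [h1, h2] with ω a1 a2
  obtain ⟨l, hl⟩ := eventually_atTop.1 a2
  exact ⟨l, fun n => ⟨a1 n, fun h => not_not.1 (hl n h)⟩⟩

theorem cont_of_basis {Ω : Type*} [TopologicalSpace Ω] (e : HilbertBasis ℕ ℂ H)
    (X : Ω → H ≃ₗᵢ[ℂ] H) (h : ∀ n, Continuous fun ω => X ω (e n)) (v : H) :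
    Continuous fun ω => X ω v := by
  have h1 : ∀ z ∈ span ℂ (Set.range e), Continuous fun ω => X ω z := by
    intro z hz
    induction hz using Submodule.span_induction with
    | mem x hx => obtain ⟨n, rfl⟩ := hx; exact h n
    | zero => simpa using continuous_const
    | add x y _ _ hx hy => simp only [map_add]; exact hx.add hy
    | smul c x _ hx => simp only [map_smul]; exact hx.const_smul c
  refine continuous_iff_continuousAt.2 fun a => Metric.continuousAt_iff'.2 fun ε hε => ?_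
  have hv : v ∈ closure (span ℂ (Set.range e) : Set H) := by
    rw [← Submodule.topologicalClosure_coe, e.dense_span]
    trivial
  obtain ⟨z, hz, hd⟩ := Metric.mem_closure_iff.1 hv (ε / 3) (by positivity)
  filter_upwards [Metric.continuousAt_iff'.1 (h1 z hz).continuousAt (ε / 3) (by positivity)]
    with ω hω
  have a1 := dist_triangle4 (X ω v) (X ω z) (X a z) (X a v)
  rw [(X ω).dist_map, (X a).dist_map, dist_comm z v] at a1
  linarith

variable [CompleteSpace H]

theorem exists_basis (e : HilbertBasis ℕ ℂ H) (h : H ≃ₗᵢ[ℂ] H) (σ : ℕ → ℕ)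
    (hσ : ∀ n, σ (σ n) = n) : ∃ b : HilbertBasis ℕ ℂ H, ∀ i, h (b i) = e (σ i) := by
  have h1 : Orthonormal ℂ fun i => h.symm (e (σ i)) :=
    (e.orthonormal.comp σ (Function.Involutive.injective hσ)).comp_linearIsometryEquiv h.symm
  have h2 : (span ℂ (Set.range fun i => h.symm (e (σ i))))ᗮ = ⊥ := by
    rw [Submodule.eq_bot_iff]
    intro m hm
    refine h.injective (basis_ext e fun t => ?_)
    have := (Submodule.mem_orthogonal _ _).1 hm _ (subset_span ⟨σ t, rfl⟩)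
    rw [← h.inner_map_map] at this
    simpa [hσ] using this
  refine ⟨HilbertBasis.mkOfOrthogonalEqBot h1 h2, fun i => ?_⟩
  rw [HilbertBasis.coe_mkOfOrthogonalEqBot]
  exact h.apply_symm_apply _

theorem exists_perm (e : HilbertBasis ℕ ℂ H) (ω : ℕ → ℕ) :
    ∃ x : H ≃ₗᵢ[ℂ] H, ∀ i, x (e (sw 0 ω i)) = e (sw 1 ω i) := by
  obtain ⟨a, ha⟩ := exists_basis e 1 _ (sw_sw (Nat.zero_le 1) ω)
  obtain ⟨b, hb⟩ := exists_basis e 1 _ (sw_sw le_rfl ω)
  refine ⟨a.repr.trans b.repr.symm, fun i => ?_⟩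
  rw [← ha, ← hb]
  exact repr_trans_apply a b i

/-- In some rotated basis the matrix of `T` is nearly triangular outside a finite corner. -/
def Ent (e : HilbertBasis ℕ ℂ H) (T : H ≃ₗᵢ[ℂ] H) : Prop :=
  ∃ (l : ℕ) (k : H ≃ₗᵢ[ℂ] H), ∀ t s : ℕ,
    (t ≤ s ∧ s % 3 ≠ 1 ∧ l ≤ s) ∨ (s ≤ t ∧ t % 3 ≠ 0 ∧ l ≤ t) →
      ‖inner ℂ (k (e t)) (T (k (e s)))‖ ≤ 1 / 64 * (1 / 2) ^ s * (1 / 2) ^ t

theorem Ent.almost {e : HilbertBasis ℕ ℂ H} {T : H ≃ₗᵢ[ℂ] H} (h : Ent e T) : AlmostShift T := by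
  obtain ⟨l, k, hk⟩ := h
  obtain ⟨b, hb⟩ := exists_basis e k.symm id fun _ => rfl
  have h1 : ∀ i, b i = k (e i) := fun i => by
    rw [← k.apply_symm_apply (b i), hb]
    rfl
  exact almost_of_entries b T l fun t s h => by rw [h1, h1]; exact hk t s h

theorem ent_of_good (e : HilbertBasis ℕ ℂ H) (g h x : H ≃ₗᵢ[ℂ] H) (ω : ℕ → ℕ)
    (hx : ∀ i, x (e (sw 0 ω i)) = e (sw 1 ω i)) (l : ℕ)
    (hω : ∀ n, ω n < mm n ∧ (l ≤ n → Good e (h * g) n (ω n))) : Ent e (g * x * h) := by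
  obtain ⟨b, hb⟩ := exists_basis e h _ (sw_sw (Nat.zero_le 1) ω)
  have hm : ∀ t s, inner ℂ (b t) ((g * x * h) (b s)) =
      inner ℂ (e (sw 0 ω t)) ((h * g) (e (sw 1 ω s))) := by
    intro t s
    rw [← h.inner_map_map, hb, ← hx, ← hb s]
    rfl
  have hmono : ∀ s t n : ℕ, s + t ≤ n →
      1 / 64 * ((1 : ℝ) / 2) ^ n ≤ 1 / 64 * (1 / 2) ^ s * (1 / 2) ^ t := fun s t n h => by
    rw [mul_assoc, ← pow_add]
    exact mul_le_mul_of_nonneg_left (pow_le_pow_of_le_one (by norm_num) (by norm_num) h)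
      (by norm_num)
  have c1 : ∀ t s, t ≤ s → s % 3 ≠ 1 → l ≤ s →
      ‖inner ℂ (b t) ((g * x * h) (b s))‖ ≤ 1 / 64 * (1 / 2) ^ s * (1 / 2) ^ t := by
    intro t s h1 h2 h3
    have := (((hω (2 * s + 1)).2 (by omega)) _ (sw_mem (n := t) (Nat.zero_le 1)
      (fun i => (hω i).1) (by omega) (Or.inr (by omega)))).2
    rw [show (2 * s + 1) % 2 = 1 by omega, show (2 * s + 1) / 2 = s by omega,
      ← sw_of_ne ω h2] at this
    rw [hm]
    exact this.trans (hmono _ _ _ (by omega))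
  refine ⟨l, e.repr.trans b.repr.symm, ?_⟩
  simp only [repr_trans_apply]
  rintro t s (⟨h1, h2, h3⟩ | ⟨h1, h2, h3⟩)
  · exact c1 t s h1 h2 h3
  · by_cases h4 : s = t ∧ s % 3 ≠ 1
    · exact c1 t s h4.1.ge h4.2 (by omega)
    · have := (((hω (2 * t + 0)).2 (by omega)) _ (sw_mem (n := s) le_rfl
        (fun i => (hω i).1) (by omega) (by omega))).1
      rw [show (2 * t + 0) % 2 = 0 by omega, show (2 * t + 0) / 2 = t by omega,
        ← sw_of_ne ω h2] at this
      rw [hm]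
      exact this.trans (hmono _ _ _ (by omega))

/-- The strong operator topology. -/
@[reducible] noncomputable def sotL (H : Type*) [NormedAddCommGroup H] [InnerProductSpace ℂ H] :
    TopologicalSpace (H ≃ₗᵢ[ℂ] H) :=
  TopologicalSpace.induced (fun u : H ≃ₗᵢ[ℂ] H => fun v : H => u v) Pi.topologicalSpace

theorem exists_witness (e : HilbertBasis ℕ ℂ H) :
    ∃ μ : @Measure (H ≃ₗᵢ[ℂ] H) (@borel _ (sotL H)),
      @IsProbabilityMeasure _ (@borel _ (sotL H)) μ ∧
        ∀ g h : H ≃ₗᵢ[ℂ] H, μ {x | ¬ Ent e (g * x * h)} = 0 := by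
  let _ : TopologicalSpace (H ≃ₗᵢ[ℂ] H) := sotL H
  let _ : MeasurableSpace (H ≃ₗᵢ[ℂ] H) := borel _
  have : BorelSpace (H ≃ₗᵢ[ℂ] H) := ⟨rfl⟩
  have : T2Space (H ≃ₗᵢ[ℂ] H) :=
    T2Space.of_injective_continuous (f := fun u : H ≃ₗᵢ[ℂ] H => fun v : H => u v)
      (fun _ _ h => LinearIsometryEquiv.ext fun v => congrFun h v) continuous_induced_dom
  choose X hX using exists_perm e
  have hc : Continuous X := by
    refine continuous_induced_rng.2 (continuous_pi (cont_of_basis e X fun n => ?_))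
    have h1 : (fun ω => X ω (e n)) = fun ω => e (sw 1 ω (sw 0 ω n)) := funext fun ω => by
      rw [← hX, sw_sw (Nat.zero_le 1)]
    rw [h1]
    exact (continuous_of_discreteTopology (f := e)).comp ((sw_cont 1).comp
      (continuous_id.prodMk ((sw_cont 0).comp (continuous_id.prodMk continuous_const))))
  refine ⟨(Measure.infinitePi lw).map X, Measure.isProbabilityMeasure_map hc.measurable.aemeasurable,
    fun g h => ?_⟩
  let K : ℕ → Set (ℕ → ℕ) := fun l =>
    {ω | ∀ n, ω n ∈ {j | j < mm n ∧ (l ≤ n → Good e (h * g) n j)}}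
  have hK : ∀ l, IsCompact (K l) := fun l =>
    isCompact_pi_infinite fun n => ((Set.finite_lt_nat (mm n)).subset fun _ hj => hj.1).isCompact
  have hG : MeasurableSet (⋃ l, X '' K l) :=
    MeasurableSet.iUnion fun l => ((hK l).image hc).isClosed.measurableSet
  refine measure_mono_null (t := (⋃ l, X '' K l)ᶜ) (fun x hx hx' => hx ?_) ?_
  · obtain ⟨l, ω, h1, rfl⟩ := Set.mem_iUnion.1 hx'
    exact ent_of_good e g h _ ω (hX ω) l h1
  · rw [Measure.map_apply hc.measurable hG.compl]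
    have h0 := ae_iff.1 (ae_good e (h * g))
    refine measure_mono_null (fun ω hω => ?_) h0
    rintro ⟨l, hl⟩
    exact hω (Set.mem_iUnion.2 ⟨l, ω, hl, rfl⟩)

end Pool.Agent.Lib.MP_dd30de_lc
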