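import Pool.Agent.Lib.MP_dd30de_lc.Wave

set_option autoImplicit false

/-!
A unitary with suitable outgoing and incoming wave operators is a bilateral shift of infinite
multiplicity, and any two such shifts are conjugate.
-/

namespace Pool.Agent.Lib.MP_dd30de_lc

open Submodule Filter Topology

variable {H : Type*} [NormedAddCommGroup H] [InnerProductSpace ℂ H]

/-- `T` is a bilateral shift of countably infinite multiplicity. -/
def IsMultishift (T : H ≃ₗᵢ[ℂ] H) : Prop :=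
  ∃ f : HilbertBasis (ℤ × ℕ) ℂ H, ∀ n i, T (f (n, i)) = f (n + 1, i)

theorem clm_ext_basis {ι : Type*} (b : HilbertBasis ι ℂ H) (φ ψ : H →L[ℂ] H)
    (h : ∀ i, φ (b i) = ψ (b i)) : φ = ψ := by
  ext v
  have h1 := φ.hasSum (basis_hasSum b v)
  have h2 := ψ.hasSum (basis_hasSum b v)
  simp only [map_smul, h] at h1 h2
  exact h1.unique h2

theorem repr_trans_apply {ι : Type*} (a b : HilbertBasis ι ℂ H) (i : ι) :
    (a.repr.trans b.repr.symm) (a i) = b i := by
  classical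
  rw [LinearIsometryEquiv.trans_apply, a.repr_self, b.repr_symm_single]

theorem IsMultishift.isConj {T T' : H ≃ₗᵢ[ℂ] H} (h : IsMultishift T) (h' : IsMultishift T') :
    IsConj T T' := by
  obtain ⟨f, hf⟩ := h
  obtain ⟨f', hf'⟩ := h'
  let U : H ≃ₗᵢ[ℂ] H := f.repr.trans f'.repr.symm
  have hU : ∀ p, U (f p) = f' p := repr_trans_apply f f'
  rw [isConj_iff]
  refine ⟨U, ?_⟩
  rw [mul_inv_eq_iff_eq_mul]
  have key : ((U * T : H ≃ₗᵢ[ℂ] H) : H →L[ℂ] H) = ((T' * U : H ≃ₗᵢ[ℂ] H) : H →L[ℂ] H) := by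
    refine clm_ext_basis f _ _ (fun ⟨n, i⟩ => ?_)
    show U (T (f (n, i))) = T' (U (f (n, i)))
    rw [hf, hU, hU, hf']
  ext v
  exact congrArg (fun φ : H →L[ℂ] H => φ v) key

theorem inner_eq_zero_of_mem_span {s : Set H} {m v : H} (hm : ∀ x ∈ s, inner ℂ m x = 0)
    (hv : v ∈ span ℂ s) : inner ℂ m v = 0 := by
  induction hv using Submodule.span_induction with
  | mem x hx => exact hm x hx
  | zero => simp
  | add x y _ _ hx hy => rw [inner_add_right, hx, hy, add_zero]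
  | smul a x _ hx => rw [inner_smul_right, hx, mul_zero]

theorem orthonormal_of_lt {ι : Type*} [LinearOrder ι] (w : ι → H) (h1 : ∀ n, ‖w n‖ = 1)
    (h2 : ∀ i j, i < j → inner ℂ (w i) (w j) = 0) : Orthonormal ℂ w := by
  refine ⟨h1, fun i j hij => ?_⟩
  rcases lt_or_gt_of_ne hij with h | h
  · exact h2 i j h
  · exact inner_eq_zero_symm.mp (h2 j i h)

/-- An infinite-dimensional closed subspace of a separable Hilbert space has an orthonormal
basis indexed by the natural numbers. -/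
theorem exists_onb (b : HilbertBasis ℕ ℂ H) (W : Submodule ℂ H) [W.HasOrthogonalProjection]
    (hW : ¬ FiniteDimensional ℂ W) :
    ∃ w : ℕ → H, (∀ n, w n ∈ W) ∧ Orthonormal ℂ w ∧
      ∀ m : H, (∀ i, inner ℂ m (w i) = 0) → ∀ x ∈ W, inner ℂ m x = 0 := by
  obtain ⟨w, hw⟩ := exists_seq_rec (α := W)
    (fun n f y => ‖(y : H)‖ = 1 ∧ (∀ i, inner ℂ (f i : H) (y : H) = 0) ∧
      W.starProjection (b n) ∈ span ℂ (insert (y : H) (Set.range fun i => (f i : H))))
    (fun n f => by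
      obtain ⟨u, huW, hu1, hu2, hu3⟩ := exists_unit_exhaust W hW
        (Set.range fun i => (f i : H)) (Set.finite_range _)
        (by rintro _ ⟨i, rfl⟩; exact (f i).2) _ (W.starProjection_apply_mem (b n))
      exact ⟨⟨u, huW⟩, hu1, fun i => hu2 _ ⟨i, rfl⟩, hu3⟩)
  refine ⟨fun n => w n, fun n => (w n).2,
    orthonormal_of_lt _ (fun n => (hw n).1) (fun i j hij => (hw j).2.1 ⟨i, hij⟩), ?_⟩
  intro m hm x hx
  have h1 : ∀ n, inner ℂ m (W.starProjection (b n)) = 0 := by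
    intro n
    refine inner_eq_zero_of_mem_span ?_ (hw n).2.2
    rintro _ (rfl | ⟨i, rfl⟩)
    · exact hm n
    · exact hm i
  have h2 : W.starProjection m = 0 := by
    refine basis_ext b (fun t => ?_)
    rw [inner_zero_right, ← inner_starProjection_left_eq_right, inner_eq_zero_symm, h1]
  rw [starProjection_apply_eq_zero_iff] at h2
  exact inner_eq_zero_symm.mp ((W.mem_orthogonal m).mp h2 x hx)

variable [CompleteSpace H]

theorem isMultishift_of_waves (b : HilbertBasis ℕ ℂ H) (T : H ≃ₗᵢ[ℂ] H) (S R : Set ℕ)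
    (hRS : R ⊆ S) (hinf : (S \ R).Infinite) (Ω Ω' : H →L[ℂ] H)
    (h1 : ∀ v, ‖Ω v - cproj b S v‖ ≤ 1 / 4 * ‖v‖) (h2 : ∀ v, Ω (cproj b S v) = Ω v)
    (h3 : ∀ v, ∃ w, (∀ t ∉ R, inner ℂ (b t) w = 0) ∧ T (Ω v) = Ω w)
    (h4 : ∀ m ε, 0 < ε → ∃ n : ℕ, ∀ v, ‖inner ℂ m ((T ^ n) (Ω v))‖ ≤ ε * ‖v‖)
    (h1' : ∀ v, ‖Ω' v - cproj b Sᶜ v‖ ≤ 1 / 4 * ‖v‖)
    (h4' : ∀ m ε, 0 < ε → ∃ n : ℕ, ∀ v, ‖inner ℂ m ((T⁻¹ ^ n) (Ω' v))‖ ≤ ε * ‖v‖) :
    IsMultishift T := by
  classical
  have hlow : ∀ v, (∀ t ∉ S, inner ℂ (b t) v = 0) → ‖v‖ ≤ 2 * ‖Ω v‖ := by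
    intro v hv
    have h := h1 v
    rw [cproj_eq_self b S v hv] at h
    have h' := norm_sub_le (Ω v) (Ω v - v)
    rw [sub_sub_cancel] at h'
    linarith [norm_nonneg v]
  let D : Submodule ℂ H := LinearMap.range (Ω : H →ₗ[ℂ] H)
  have hDmem : ∀ v, Ω v ∈ D := fun v => ⟨v, rfl⟩
  have hDcl : IsClosed (D : Set H) := by
    let V : Submodule ℂ H := (span ℂ (b '' Sᶜ))ᗮ
    have hanti : AntilipschitzWith 2 (Ω.comp V.subtypeL) := by
      refine AddMonoidHomClass.antilipschitz_of_bound _ (fun x => ?_)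
      exact hlow x (fun t ht =>
        (Submodule.mem_orthogonal _ _).mp x.2 (b t) (subset_span ⟨t, ht, rfl⟩))
    have hcl := hanti.isClosed_range (Ω.comp V.subtypeL).uniformContinuous
    convert hcl using 1
    ext y
    constructor
    · rintro ⟨v, rfl⟩
      exact ⟨⟨cproj b S v, V.starProjection_apply_mem v⟩, h2 v⟩
    · rintro ⟨v, rfl⟩
      exact hDmem _
  have : CompleteSpace D := hDcl.completeSpace_coe
  let Y : Submodule ℂ H := D.map (T.toLinearEquiv : H →ₗ[ℂ] H)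
  have : Y.HasOrthogonalProjection := HasOrthogonalProjection.map_linearIsometryEquiv D T
  have hTD : ∀ d ∈ D, T d ∈ D := by
    rintro _ ⟨v, rfl⟩
    obtain ⟨w, -, hw⟩ := h3 v
    exact ⟨w, hw.symm⟩
  have hYD : Y ≤ D := by
    rintro _ ⟨d, hd, rfl⟩
    exact hTD d hd
  have hTY : ∀ d ∈ D, T d ∈ Y := fun d hd => ⟨d, hd, rfl⟩
  let W : Submodule ℂ H := D ⊓ Yᗮ
  have hWcl : IsClosed (W : Set H) := hDcl.inter Y.isClosed_orthogonal
  have : CompleteSpace W := hWcl.completeSpace_coe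
  have hWmem : ∀ d ∈ D, d - Y.starProjection d ∈ W := fun d hd =>
    ⟨D.sub_mem hd (hYD (Y.starProjection_apply_mem d)), Y.sub_starProjection_mem_orthogonal d⟩
  have hdec : ∀ d ∈ D, ∃ w ∈ W, ∃ d' ∈ D, d = w + T d' ∧ ‖d'‖ ≤ ‖d‖ := by
    intro d hd
    obtain ⟨d', hd', hd''⟩ := Y.starProjection_apply_mem d
    have e : T d' = Y.starProjection d := hd''
    refine ⟨_, hWmem d hd, d', hd', by rw [e, sub_add_cancel], ?_⟩
    rw [← T.norm_map, e]
    exact norm_starProjection_apply_le _ _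
  have hWinf : ¬ FiniteDimensional ℂ W := by
    intro hfin
    have : Infinite (S \ R : Set ℕ) := hinf.to_subtype
    let L : H →ₗ[ℂ] H := (Ω : H →ₗ[ℂ] H) - (Y.starProjection : H →ₗ[ℂ] H).comp (Ω : H →ₗ[ℂ] H)
    have hL : ∀ v, L v = Ω v - Y.starProjection (Ω v) := fun v => rfl
    have hli : LinearIndependent ℂ (fun c : (S \ R : Set ℕ) => b c) :=
      b.orthonormal.linearIndependent.comp _ Subtype.val_injective
    have hdisj : Disjoint (span ℂ (Set.range fun c : (S \ R : Set ℕ) => b c)) (LinearMap.ker L) := by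
      rw [Submodule.disjoint_def]
      intro v hv hker
      have hv' : ∀ t, t ∉ S \ R → inner ℂ (b t) v = 0 := by
        intro t ht
        refine inner_eq_zero_of_mem_span ?_ hv
        rintro _ ⟨c, rfl⟩
        rw [basis_inner, if_neg]
        rintro rfl
        exact ht c.2
      rw [LinearMap.mem_ker, hL, sub_eq_zero] at hker
      obtain ⟨_, ⟨u, rfl⟩, hu⟩ := Y.starProjection_apply_mem (Ω v)
      obtain ⟨w, hwR, hw⟩ := h3 u
      have e : Ω w = Ω v := by rw [← hw, hker]; exact hu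
      have hvw : v - w = 0 := by
        have := hlow (v - w) (fun t ht => by
          rw [inner_sub_right, hv' t (fun h => ht h.1), hwR t (fun h => ht (hRS h)), sub_zero])
        rw [map_sub, e, sub_self, norm_zero, mul_zero] at this
        exact norm_le_zero_iff.mp this
      rw [sub_eq_zero] at hvw
      refine basis_ext b (fun t => ?_)
      rw [inner_zero_right]
      by_cases ht : t ∈ R
      · exact hv' t (fun h => h.2 ht)
      · rw [hvw]; exact hwR t ht
    have hli2 := hli.map hdisj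
    have hli3 : LinearIndependent ℂ
        (fun c : (S \ R : Set ℕ) => (⟨L (b c), hWmem _ (hDmem _)⟩ : W)) :=
      LinearIndependent.of_comp W.subtype hli2
    exact Module.Finite.not_linearIndependent_of_infinite _ hli3
  obtain ⟨w, hwW, hwon, hwc⟩ := exists_onb b W hWinf
  have hTkD : ∀ k : ℕ, ∀ d ∈ D, (T ^ k) d ∈ D := by
    intro k d hd
    induction k with
    | zero => simpa using hd
    | succ k ih =>
      rw [pow_succ', LinearIsometryEquiv.coe_mul, Function.comp_apply]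
      exact hTD _ ih
  have hzadd : ∀ (n k : ℤ) (x : H), (T ^ (n + k)) x = (T ^ n) ((T ^ k) x) := by
    intro n k x
    rw [zpow_add, LinearIsometryEquiv.coe_mul, Function.comp_apply]
  have hwand : ∀ (n k : ℤ), n < k → ∀ x ∈ W, ∀ y ∈ W, inner ℂ ((T ^ n) x) ((T ^ k) y) = 0 := by
    intro n k hnk x hx y hy
    obtain ⟨j, rfl⟩ : ∃ j : ℕ, k = n + ((j + 1 : ℕ) : ℤ) := ⟨(k - n - 1).toNat, by omega⟩
    rw [hzadd, LinearIsometryEquiv.inner_map_map, zpow_natCast, pow_succ',
      LinearIsometryEquiv.coe_mul, Function.comp_apply, inner_eq_zero_symm]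
    exact (Y.mem_orthogonal x).mp hx.2 _ (hTY _ (hTkD j y hy.1))
  let f : ℤ × ℕ → H := fun p => (T ^ p.1) (w p.2)
  have hfon : Orthonormal ℂ f := by
    refine ⟨fun p => by simp only [f, LinearIsometryEquiv.norm_map, hwon.1], ?_⟩
    rintro ⟨n, i⟩ ⟨k, j⟩ hne
    rcases lt_trichotomy n k with h | h | h
    · exact hwand n k h _ (hwW i) _ (hwW j)
    · subst h
      have hij : i ≠ j := fun h => hne (by rw [h])
      simp only [f, LinearIsometryEquiv.inner_map_map]
      exact hwon.2 hij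
    · exact inner_eq_zero_symm.mp (hwand k n h _ (hwW j) _ (hwW i))
  -- a vector orthogonal to all forward images of `W` is orthogonal to `D`
  have hfwd : ∀ m : H, (∀ k : ℕ, ∀ x ∈ W, inner ℂ m ((T ^ k) x) = 0) →
      ∀ d ∈ D, inner ℂ m d = 0 := by
    intro m hm d hd
    have hit : ∀ n : ℕ, ∃ d' ∈ D, ‖d'‖ ≤ ‖d‖ ∧ inner ℂ m d = inner ℂ m ((T ^ n) d') := by
      intro n
      induction n with
      | zero => exact ⟨d, hd, le_rfl, by simp⟩
      | succ n ih =>
        obtain ⟨d', hd', hn, he⟩ := ih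
        obtain ⟨x, hx, d'', hd'', hdd, hn'⟩ := hdec d' hd'
        refine ⟨d'', hd'', hn'.trans hn, ?_⟩
        rw [he, hdd, map_add, inner_add_right, hm n x hx, zero_add, pow_succ,
          LinearIsometryEquiv.coe_mul, Function.comp_apply]
    rw [← norm_le_zero_iff]
    refine le_of_forall_pos_le_add (fun ε hε => ?_)
    obtain ⟨n, hn⟩ := h4 m (ε / (2 * ‖d‖ + 1)) (by positivity)
    obtain ⟨_, ⟨v, rfl⟩, hn', he⟩ := hit n
    have hn'' : ‖Ω v‖ ≤ ‖d‖ := hn'
    have he' : inner ℂ m d = inner ℂ m ((T ^ n) (Ω (cproj b S v))) := by rw [h2]; exact he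
    have h5 := hlow (cproj b S v) (fun t ht => inner_cproj_of_notMem b S v ht)
    rw [h2] at h5
    rw [he', zero_add]
    refine (hn _).trans ?_
    rw [div_mul_eq_mul_div, div_le_iff₀ (by positivity)]
    exact mul_le_mul_of_nonneg_left (by linarith) hε.le
  have hcomp : (span ℂ (Set.range f))ᗮ = ⊥ := by
    rw [Submodule.eq_bot_iff]
    intro m hm
    have hm1 : ∀ (n : ℤ) (i : ℕ), inner ℂ m ((T ^ n) (w i)) = 0 := fun n i =>
      inner_eq_zero_symm.mp ((Submodule.mem_orthogonal _ _).mp hm _ (subset_span ⟨(n, i), rfl⟩))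
    have hm2 : ∀ (n : ℤ), ∀ x ∈ W, inner ℂ m ((T ^ n) x) = 0 := by
      intro n x hx
      have e : ∀ y, inner ℂ m ((T ^ n) y) = inner ℂ ((T ^ n).symm m) y := by
        intro y
        rw [← (T ^ n).inner_map_map ((T ^ n).symm m) y, LinearIsometryEquiv.apply_symm_apply]
      rw [e]
      exact hwc _ (fun i => by rw [← e]; exact hm1 n i) x hx
    have hm3 : ∀ (n : ℕ), ∀ d ∈ D, inner ℂ ((T ^ n) m) d = 0 := by
      intro n
      refine hfwd _ (fun k x hx => ?_)
      have e : (T ^ k) x = (T ^ n) ((T ^ ((k : ℤ) - n)) x) := by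
        rw [← zpow_natCast T n, ← hzadd, ← zpow_natCast T k]
        congr 2
        ring
      rw [e, LinearIsometryEquiv.inner_map_map]
      exact hm2 _ x hx
    rw [← norm_le_zero_iff]
    refine le_of_forall_pos_le_add (fun ε hε => ?_)
    obtain ⟨n, hn⟩ := h4' m (ε / 2) (by positivity)
    set u := (T ^ n) m with hu
    have hun : ‖u‖ = ‖m‖ := (T ^ n).norm_map m
    have e1 : inner ℂ m ((T⁻¹ ^ n) (Ω' u)) = inner ℂ u (Ω' u) := by
      rw [← (T ^ n).inner_map_map, ← hu]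
      congr 1
      rw [inv_pow]
      simp
    have e2 : inner ℂ u (Ω' u) =
        inner ℂ u u + inner ℂ u ((Ω u - cproj b S u) + (Ω' u - cproj b Sᶜ u)) := by
      have e3 : inner ℂ u (Ω u) = 0 := hm3 n _ (hDmem u)
      have e4 : inner ℂ u u = inner ℂ u (cproj b S u) + inner ℂ u (cproj b Sᶜ u) := by
        rw [← inner_add_right, cproj_add_compl]
      rw [inner_add_right, inner_sub_right, inner_sub_right, e3, e4]
      ring
    have e5 : ‖inner ℂ u ((Ω u - cproj b S u) + (Ω' u - cproj b Sᶜ u))‖ ≤ ‖u‖ * (1 / 2 * ‖u‖) := by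
      refine (norm_inner_le_norm _ _).trans (mul_le_mul_of_nonneg_left ?_ (norm_nonneg _))
      refine (norm_add_le _ _).trans ?_
      linarith [h1 u, h1' u]
    have e6 := hn u
    rw [e1] at e6
    have e7 : ‖inner ℂ u u‖ = ‖u‖ * ‖u‖ := by
      rw [inner_self_eq_norm_sq_to_K]
      simp [sq]
    have e8 : ‖inner ℂ u u‖ ≤ ‖inner ℂ u (Ω' u)‖ +
        ‖inner ℂ u ((Ω u - cproj b S u) + (Ω' u - cproj b Sᶜ u))‖ := by
      have := norm_sub_le (inner ℂ u (Ω' u))
        (inner ℂ u ((Ω u - cproj b S u) + (Ω' u - cproj b Sᶜ u)))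
      rwa [show inner ℂ u (Ω' u) - inner ℂ u ((Ω u - cproj b S u) + (Ω' u - cproj b Sᶜ u))
        = inner ℂ u u by rw [e2]; ring] at this
    rw [← hun, zero_add]
    by_contra hcon
    push Not at hcon
    nlinarith
  refine ⟨HilbertBasis.mkOfOrthogonalEqBot hfon hcomp, fun n i => ?_⟩
  rw [HilbertBasis.coe_mkOfOrthogonalEqBot]
  show T ((T ^ n) (w i)) = (T ^ (n + 1)) (w i)
  rw [add_comm, hzadd, zpow_one]

end Pool.Agent.Lib.MP_dd30de_lc
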