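import Pool.Agent.Lib.MP_dd30de_lc.Catcher

set_option autoImplicit false

/-!
A random unitary with measurable matrix coefficients has uniformly tight orbits on an event of
positive probability.
-/

namespace Pool.Agent.Lib.MP_dd30de_lc

open Submodule Filter Topology MeasureTheory

theorem exists_pos_iInter {Ω : Type*} [MeasurableSpace Ω] (μ : Measure Ω)
    [IsProbabilityMeasure μ] {ι : Type*} [Countable ι] (A : ι → ℕ → Set Ω)
    (hm : ∀ j N, MeasurableSet (A j N)) (hmono : ∀ j, Monotone (A j))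
    (hU : ∀ j ω, ∃ N, ω ∈ A j N) : ∃ N : ι → ℕ, μ (⋂ j, A j (N j)) ≠ 0 := by
  obtain ⟨ε, hε, hsum⟩ := ENNReal.exists_pos_sum_of_countable (ε := 1) one_ne_zero ι
  have key : ∀ j, ∃ N, μ (A j N)ᶜ ≤ ε j := by
    intro j
    have h1 : Tendsto (μ ∘ fun N => (A j N)ᶜ) atTop (𝓝 (μ (⋂ N, (A j N)ᶜ))) :=
      tendsto_measure_iInter_atTop (fun N => (hm j N).compl.nullMeasurableSet)
        (fun N M h => Set.compl_subset_compl.mpr (hmono j h)) ⟨0, measure_ne_top _ _⟩
    have h2 : (⋂ N, (A j N)ᶜ) = ∅ := by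
      rw [Set.eq_empty_iff_forall_notMem]
      intro ω hω
      obtain ⟨N, hN⟩ := hU j ω
      exact Set.mem_iInter.mp hω N hN
    rw [h2, measure_empty] at h1
    have h3 := h1.eventually (ge_mem_nhds (show (0 : ENNReal) < ε j by exact_mod_cast hε j))
    exact h3.exists
  choose N hN using key
  refine ⟨N, fun h0 => ?_⟩
  have h1 : μ Set.univ ≤ μ (⋂ j, A j (N j)) + μ (⋃ j, (A j (N j))ᶜ) := by
    rw [← Set.compl_iInter, ← Set.union_compl_self (⋂ j, A j (N j))]
    exact measure_union_le _ _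
  rw [h0, zero_add, measure_univ] at h1
  have h2 := (measure_iUnion_le (μ := μ) _).trans (ENNReal.tsum_le_tsum hN)
  exact absurd (h1.trans h2) (not_le.mpr hsum)

variable {H : Type*} [NormedAddCommGroup H] [InnerProductSpace ℂ H]

theorem norm_sub_sum_sq (e : HilbertBasis ℕ ℂ H) (y : H) (N : ℕ) :
    ‖y - ∑ i ∈ Finset.range N, inner ℂ (e i) y • e i‖ ^ 2 =
      ‖y‖ ^ 2 - ∑ i ∈ Finset.range N, ‖inner ℂ (e i) y‖ ^ 2 := by
  have h₂ : (∑ i ∈ Finset.range N, ∑ j ∈ Finset.range N,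
      inner ℂ (e i) y * inner ℂ y (e j) * inner ℂ (e j) (e i)) =
      (∑ k ∈ Finset.range N, inner ℂ (e k) y * inner ℂ y (e k) : ℂ) :=
    e.orthonormal.inner_left_right_finset
  have h₃ : ∀ z : ℂ, RCLike.re (z * (starRingEnd ℂ) z) = ‖z‖ ^ 2 := by
    intro z
    simp only [RCLike.mul_conj]
    norm_cast
  rw [@norm_sub_sq ℂ, sub_add]
  simp only [@InnerProductSpace.norm_sq_eq_re_inner ℂ H, inner_sum, sum_inner]
  simp only [inner_smul_right, two_mul, inner_smul_left, inner_conj_symm, ← mul_assoc, h₂,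
    add_sub_cancel_right, sub_right_inj]
  simp only [map_sum, ← inner_conj_symm y, ← h₃]

theorem inner_le_of_tail (e : HilbertBasis ℕ ℂ H) (y u : H) (N : ℕ) (η : ℝ) (hη : 0 ≤ η)
    (hy : ‖y‖ ^ 2 - ∑ i ∈ Finset.range N, ‖inner ℂ (e i) y‖ ^ 2 ≤ η ^ 2)
    (hu : ∀ i < N, inner ℂ (e i) u = 0) : ‖inner ℂ y u‖ ≤ η * ‖u‖ := by
  rw [← norm_sub_sum_sq] at hy
  have h2 := (pow_le_pow_iff_left₀ (norm_nonneg _) hη two_ne_zero).mp hy
  have h3 : inner ℂ y u = inner ℂ (y - ∑ i ∈ Finset.range N, inner ℂ (e i) y • e i) u := by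
    rw [inner_sub_left, sum_inner]
    have : ∑ i ∈ Finset.range N, inner ℂ (inner ℂ (e i) y • e i) u = 0 := by
      refine Finset.sum_eq_zero (fun i hi => ?_)
      rw [inner_smul_left, hu i (Finset.mem_range.mp hi), mul_zero]
    rw [this, sub_zero]
  rw [h3]
  exact (norm_inner_le_norm _ _).trans (mul_le_mul_of_nonneg_right h2 (norm_nonneg _))

theorem eventually_tail (e : HilbertBasis ℕ ℂ H) (y : H) (η : ℝ) (hη : 0 < η) :
    ∀ᶠ N in atTop, ‖y‖ ^ 2 - ∑ i ∈ Finset.range N, ‖inner ℂ (e i) y‖ ^ 2 ≤ η ^ 2 := by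
  have h1 := (basis_hasSum e y).tendsto_sum_nat
  rw [Metric.tendsto_atTop] at h1
  obtain ⟨n, hn⟩ := h1 η hη
  filter_upwards [eventually_ge_atTop n] with N hN
  have h2 := hn N hN
  rw [dist_comm, dist_eq_norm] at h2
  rw [← norm_sub_sum_sq]
  exact pow_le_pow_left₀ (norm_nonneg _) h2.le 2

theorem exists_tight_event {Ω : Type*} [MeasurableSpace Ω] (μ : Measure Ω)
    [IsProbabilityMeasure μ] (e : HilbertBasis ℕ ℂ H) (X : Ω → (H ≃ₗᵢ[ℂ] H))
    (hX : ∀ i j, Measurable (fun ω => ‖inner ℂ (e i) (X ω (e j))‖)) :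
    ∃ A : Set Ω, μ A ≠ 0 ∧ ∀ n, Tight e (X '' A) (e n) := by
  let A : ℕ × ℕ → ℕ → Set Ω := fun j N =>
    {ω | 1 - ∑ i ∈ Finset.range N, ‖inner ℂ (e i) (X ω (e j.1))‖ ^ 2 ≤ (1 / ((j.2 : ℝ) + 1)) ^ 2} ∩
    {ω | 1 - ∑ i ∈ Finset.range N, ‖inner ℂ (e j.1) (X ω (e i))‖ ^ 2 ≤ (1 / ((j.2 : ℝ) + 1)) ^ 2}
  have hsym : ∀ (x : H ≃ₗᵢ[ℂ] H) (v u : H), inner ℂ (x.symm v) u = inner ℂ v (x u) := by
    intro x v u
    rw [← x.inner_map_map (x.symm v) u, x.apply_symm_apply]
  have hsym' : ∀ (x : H ≃ₗᵢ[ℂ] H) (v u : H), ‖inner ℂ u (x.symm v)‖ = ‖inner ℂ v (x u)‖ := by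
    intro x v u
    rw [norm_inner_symm, hsym]
  obtain ⟨N, hN⟩ := exists_pos_iInter μ A
    (fun j N => by
      refine MeasurableSet.inter ?_ ?_
      · exact measurableSet_le (measurable_const.sub
          (Finset.measurable_sum _ (fun i _ => (hX i j.1).pow_const 2))) measurable_const
      · exact measurableSet_le (measurable_const.sub
          (Finset.measurable_sum _ (fun i _ => (hX j.1 i).pow_const 2))) measurable_const)
    (fun j N M hNM ω hω => by
      have hs : Finset.range N ⊆ Finset.range M := Finset.range_mono hNM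
      obtain ⟨h1, h2⟩ := hω
      rw [Set.mem_ofPred_eq] at h1 h2
      constructor
      · rw [Set.mem_ofPred_eq]
        refine le_trans (sub_le_sub_left ?_ _) h1
        exact Finset.sum_le_sum_of_subset_of_nonneg hs (fun _ _ _ => by positivity)
      · rw [Set.mem_ofPred_eq]
        refine le_trans (sub_le_sub_left ?_ _) h2
        exact Finset.sum_le_sum_of_subset_of_nonneg hs (fun _ _ _ => by positivity))
    (fun j ω => by
      have h1 := eventually_tail e (X ω (e j.1)) (1 / ((j.2 : ℝ) + 1)) (by positivity)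
      have h2 := eventually_tail e ((X ω).symm (e j.1)) (1 / ((j.2 : ℝ) + 1)) (by positivity)
      simp only [LinearIsometryEquiv.norm_map, e.orthonormal.1, one_pow, hsym'] at h1 h2
      exact (h1.and h2).exists)
  refine ⟨_, hN, fun n ε hε => ?_⟩
  obtain ⟨k, hk⟩ := exists_nat_one_div_lt hε
  refine ⟨N (n, k), ?_⟩
  rintro _ ⟨ω, hω, rfl⟩ u hu
  obtain ⟨h1, h2⟩ := Set.mem_iInter.mp hω (n, k)
  have hle : 1 / ((k : ℝ) + 1) * ‖u‖ ≤ ε * ‖u‖ := mul_le_mul_of_nonneg_right hk.le (norm_nonneg _)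
  constructor
  · rw [norm_inner_symm]
    refine (inner_le_of_tail e _ u (N (n, k)) _ (by positivity) ?_ hu).trans hle
    simp only [LinearIsometryEquiv.norm_map, e.orthonormal.1, one_pow]
    exact h1
  · rw [← hsym]
    refine (inner_le_of_tail e _ u (N (n, k)) _ (by positivity) ?_ hu).trans hle
    simp only [LinearIsometryEquiv.norm_map, e.orthonormal.1, one_pow, hsym']
    exact h2

theorem tight_one (e : HilbertBasis ℕ ℂ H) (n : ℕ) : Tight e {1} (e n) := by
  intro ε hε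
  refine ⟨n + 1, ?_⟩
  rintro _ rfl u hu
  have h := hu n (Nat.lt_succ_self n)
  have h' : inner ℂ u (e n) = 0 := inner_eq_zero_symm.mp h
  simp only [LinearIsometryEquiv.coe_one, id, h, h', norm_zero]
  constructor <;> positivity

variable [CompleteSpace H]

/-- There is a unitary `a` such that every random unitary with measurable matrix coefficients can
be translated into the conjugacy class of `a` with positive probability. -/
theorem exists_class_not_null (e : HilbertBasis ℕ ℂ H) :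
    ∃ a : H ≃ₗᵢ[ℂ] H, IsMultishift a ∧
      ∀ {Ω : Type*} [MeasurableSpace Ω] (μ : Measure Ω) [IsProbabilityMeasure μ]
        (X : Ω → (H ≃ₗᵢ[ℂ] H)), (∀ i j, Measurable (fun ω => ‖inner ℂ (e i) (X ω (e j))‖)) →
        ∃ g : H ≃ₗᵢ[ℂ] H, μ {ω | IsConj a (g * X ω)} ≠ 0 := by
  obtain ⟨a, ha⟩ := exists_catcher e {1} (tight_one e)
  have ha' : IsMultishift a := by simpa using ha 1 rfl
  refine ⟨a, ha', fun μ _ X hX => ?_⟩
  obtain ⟨A, hA, hT⟩ := exists_tight_event μ e X hX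
  obtain ⟨g, hg⟩ := exists_catcher e _ hT
  refine ⟨g, fun h0 => hA (measure_mono_null (fun ω hω => ?_) h0)⟩
  exact ha'.isConj (hg _ ⟨ω, hω, rfl⟩)

end Pool.Agent.Lib.MP_dd30de_lc
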