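import Pool.Agent.Lib.MP_dd30de_lc.Basic

set_option autoImplicit false

/-!
A model operator which strictly raises the index of basis vectors, and the wave operator that
intertwines it with a given unitary.
-/

namespace Pool.Agent.Lib.MP_dd30de_lc

open Submodule Filter Topology InnerProductSpace

variable {H : Type*} [NormedAddCommGroup H] [InnerProductSpace ℂ H] [CompleteSpace H]

theorem hasSum_geom_ge (n : ℕ) :
    HasSum (fun i : ℕ => if n ≤ i then ((1 : ℝ) / 2) ^ i else 0) (2 * (1 / 2) ^ n) := by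
  have hs : Summable (fun i : ℕ => if n ≤ i then ((1 : ℝ) / 2) ^ i else 0) := by
    refine Summable.of_nonneg_of_le (fun i => ?_) (fun i => ?_) summable_geometric_two
    · split_ifs <;> positivity
    · split_ifs
      · exact le_rfl
      · positivity
  have := hs.hasSum
  have h2 := tsum_geometric_inv_two_ge n
  simp only [one_div] at this ⊢
  rwa [h2] at this

theorem exists_model (b : HilbertBasis ℕ ℂ H) (T : H ≃ₗᵢ[ℂ] H) (S R : Set ℕ) (δ : ℝ)
    (hδ : 0 ≤ δ)
    (hT : ∀ s ∈ S, ∀ t, ¬ (s < t ∧ t ∈ R) →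
      ‖inner ℂ (b t) (T (b s))‖ ≤ δ * (1 / 2) ^ s * (1 / 2) ^ t) :
    ∃ A : H →L[ℂ] H, (∀ v, ∀ t ∉ R, inner ℂ (b t) (A v) = 0) ∧
      (∀ n v, (∀ s < n, inner ℂ (b s) v = 0) → ∀ t < n + 1, inner ℂ (b t) (A v) = 0) ∧
      (∀ n v, (∀ s ∉ S, inner ℂ (b s) v = 0) → (∀ s < n, inner ℂ (b s) v = 0) →
        ‖A v - T v‖ ≤ 4 * δ * (1 / 2) ^ n * ‖v‖) := by
  classical
  let G : ℕ → Set ℕ := fun s => {t | s < t ∧ t ∈ R}
  let r : ℕ → H := fun s => if s ∈ S then cproj b (G s)ᶜ (T (b s)) else 0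
  have hr : ∀ s, ‖r s‖ ≤ 2 * δ * (1 / 2) ^ s := by
    intro s
    by_cases hs : s ∈ S
    · simp only [r, if_pos hs]
      have hsum : HasSum (fun t : ℕ => δ * (1 / 2) ^ s * (1 / 2) ^ t) (δ * (1 / 2) ^ s * 2) :=
        hasSum_geometric_two.mul_left _
      refine (norm_le_of_coord b _ _ _ hsum (fun t => ?_)).trans (le_of_eq (by ring))
      by_cases ht : t ∈ (G s)ᶜ
      · rw [inner_cproj_of_mem b _ _ ht]
        exact hT s hs t ht
      · rw [inner_cproj_of_notMem b _ _ ht, norm_zero]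
        positivity
    · simp only [r, if_neg hs, norm_zero]
      positivity
  have hsumm : Summable (fun s => rankOne ℂ (r s) (b s)) := by
    refine Summable.of_norm_bounded (summable_geometric_two.mul_left (2 * δ)) (fun s => ?_)
    rw [norm_rankOne, b.orthonormal.1 s, mul_one]
    exact hr s
  let E : H →L[ℂ] H := ∑' s, rankOne ℂ (r s) (b s)
  have hE : ∀ v, HasSum (fun s => inner ℂ (b s) v • r s) (E v) := by
    intro v
    have := (ContinuousLinearMap.apply ℂ H v).hasSum hsumm.hasSum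
    simpa only [ContinuousLinearMap.apply_apply, rankOne_apply] using this
  have hEb : ∀ s, E (b s) = r s := by
    intro s
    have h1 := hE (b s)
    have h2 : HasSum (fun t => inner ℂ (b t) (b s) • r t) (inner ℂ (b s) (b s) • r s) := by
      refine hasSum_single s (fun t ht => ?_)
      rw [basis_inner, if_neg ht, zero_smul]
    rw [h1.unique h2, basis_inner, if_pos rfl, one_smul]
  let A : H →L[ℂ] H := (T : H →L[ℂ] H).comp (cproj b S) - E
  have hAv : ∀ v, A v = T (cproj b S v) - E v := fun v => rfl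
  have hAb : ∀ s t, ¬ (s < t ∧ t ∈ R) → inner ℂ (b t) (A (b s)) = 0 := by
    intro s t hst
    rw [hAv, hEb]
    by_cases hs : s ∈ S
    · have h1 : cproj b S (b s) = b s := by
        refine cproj_eq_self b S _ (fun t ht => ?_)
        rw [basis_inner, if_neg]
        rintro rfl
        exact ht hs
      simp only [r, if_pos hs, h1]
      rw [inner_sub_right, inner_cproj_of_mem b _ _ (show t ∈ (G s)ᶜ from hst), sub_self]
    · have h1 : cproj b S (b s) = 0 := by
        refine basis_ext b (fun t => ?_)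
        by_cases ht : t ∈ S
        · rw [inner_cproj_of_mem b S _ ht, basis_inner, if_neg, inner_zero_right]
          rintro rfl
          exact hs ht
        · rw [inner_cproj_of_notMem b S _ ht, inner_zero_right]
      simp [r, if_neg hs, h1]
  refine ⟨A, fun v t ht => ?_, fun n v hv t ht => ?_, fun n v hvS hv => ?_⟩
  · exact clm_apply_eq_zero b ((innerSL ℂ (b t)).comp A) v
      (fun s => Or.inr (hAb s t (fun h => ht h.2)))
  · refine clm_apply_eq_zero b ((innerSL ℂ (b t)).comp A) v (fun s => ?_)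
    by_cases hs : s < n
    · exact Or.inl (hv s hs)
    · exact Or.inr (hAb s t (fun h => by omega))
  · rw [hAv, cproj_eq_self b S v hvS, sub_sub_cancel_left, norm_neg]
    have hsum := (hasSum_geom_ge n).mul_left (2 * δ * ‖v‖)
    refine ((hE v).norm_le_of_bounded hsum (fun s => ?_)).trans (le_of_eq (by ring))
    rw [norm_smul]
    split_ifs with hs
    · have h1 : ‖inner ℂ (b s) v‖ ≤ ‖v‖ := by
        have := norm_inner_le_norm (𝕜 := ℂ) (b s) v
        rwa [b.orthonormal.1 s, one_mul] at this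
      calc ‖inner ℂ (b s) v‖ * ‖r s‖ ≤ ‖v‖ * (2 * δ * (1 / 2) ^ s) :=
            mul_le_mul h1 (hr s) (norm_nonneg _) (norm_nonneg _)
        _ = _ := by ring
    · rw [hv s (by omega)]
      simp

theorem exists_wave (b : HilbertBasis ℕ ℂ H) (T : H ≃ₗᵢ[ℂ] H) (S R : Set ℕ) (hRS : R ⊆ S)
    (η : ℝ) (hη0 : 0 ≤ η) (hη : η ≤ 1 / 4) (A : H →L[ℂ] H)
    (hA1 : ∀ v, ∀ t ∉ R, inner ℂ (b t) (A v) = 0)
    (hA2 : ∀ n v, (∀ s < n, inner ℂ (b s) v = 0) → ∀ t < n + 1, inner ℂ (b t) (A v) = 0)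
    (hA3 : ∀ n v, (∀ s ∉ S, inner ℂ (b s) v = 0) → (∀ s < n, inner ℂ (b s) v = 0) →
        ‖A v - T v‖ ≤ η * (1 / 2) ^ n * ‖v‖) :
    ∃ Ω : H →L[ℂ] H, (∀ v, ‖Ω v - cproj b S v‖ ≤ 4 * η * ‖v‖) ∧
      (∀ v, Ω (cproj b S v) = Ω v) ∧
      (∀ v, ∃ w, (∀ t ∉ R, inner ℂ (b t) w = 0) ∧ T (Ω v) = Ω w) ∧
      (∀ m ε, 0 < ε → ∃ n : ℕ, ∀ v, ‖inner ℂ m ((T ^ n) (Ω v))‖ ≤ ε * ‖v‖) := by
  classical
  let U : ℕ → H →L[ℂ] H := fun n => (A ^ n).comp (cproj b S)
  have hU0 : ∀ v, U 0 v = cproj b S v := fun v => by simp [U]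
  have hUs : ∀ n v, U (n + 1) v = A (U n v) := fun n v => by simp [U, pow_succ']
  have hUS : ∀ n v, ∀ s ∉ S, inner ℂ (b s) (U n v) = 0 := by
    intro n v s hs
    cases n with
    | zero => rw [hU0]; exact inner_cproj_of_notMem b S v hs
    | succ n => rw [hUs]; exact hA1 _ s (fun h => hs (hRS h))
  have hUn : ∀ n v, ∀ s < n, inner ℂ (b s) (U n v) = 0 := by
    intro n v
    induction n with
    | zero => intro s hs; omega
    | succ n ih => rw [hUs]; exact hA2 n _ ih
  have hUb : ∀ n v, ‖U n v‖ ≤ (1 + 4 * η * (1 - (1 / 2) ^ n)) * ‖v‖ := by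
    intro n v
    induction n with
    | zero => simpa [hU0] using norm_cproj_le b S v
    | succ n ih =>
      have h1 := hA3 n _ (hUS n v) (hUn n v)
      have h2 : ‖A (U n v)‖ ≤ ‖A (U n v) - T (U n v)‖ + ‖U n v‖ := by
        have := norm_add_le (A (U n v) - T (U n v)) (T (U n v))
        rwa [sub_add_cancel, T.norm_map] at this
      have hp : (0 : ℝ) < (1 / 2) ^ n := by positivity
      have hv := norm_nonneg v
      have h3 : ‖U n v‖ ≤ 2 * ‖v‖ := by
        refine ih.trans (mul_le_mul_of_nonneg_right ?_ hv)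
        nlinarith [mul_nonneg hη0 hp.le]
      have h4 : η * (1 / 2) ^ n * ‖U n v‖ ≤ η * (1 / 2) ^ n * (2 * ‖v‖) :=
        mul_le_mul_of_nonneg_left h3 (by positivity)
      rw [hUs, pow_succ]
      nlinarith
  have hUb2 : ∀ n v, ‖U n v‖ ≤ 2 * ‖v‖ := by
    intro n v
    have hp : (0 : ℝ) < (1 / 2) ^ n := by positivity
    refine (hUb n v).trans (mul_le_mul_of_nonneg_right ?_ (norm_nonneg v))
    nlinarith [mul_nonneg hη0 hp.le]
  let W : ℕ → H →L[ℂ] H := fun n => ((T⁻¹ ^ n : H ≃ₗᵢ[ℂ] H) : H →L[ℂ] H).comp (U n)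
  have hW : ∀ n v, W n v = (T⁻¹ ^ n) (U n v) := fun n v => rfl
  have hstep : ∀ n, dist (W n) (W (n + 1)) ≤ 4 * η / 2 / 2 ^ n := by
    intro n
    rw [dist_eq_norm]
    refine ContinuousLinearMap.opNorm_le_bound _ (by positivity) (fun v => ?_)
    have h1 : (W n - W (n + 1)) v = (T⁻¹ ^ (n + 1)) (T (U n v) - A (U n v)) := by
      rw [sub_apply, hW, hW, hUs, map_sub, pow_succ]
      simp
    rw [h1, LinearIsometryEquiv.norm_map, norm_sub_rev]
    refine (hA3 n _ (hUS n v) (hUn n v)).trans ?_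
    calc η * (1 / 2) ^ n * ‖U n v‖ ≤ η * (1 / 2) ^ n * (2 * ‖v‖) :=
          mul_le_mul_of_nonneg_left (hUb2 n v) (by positivity)
      _ = _ := by rw [one_div, inv_pow]; field_simp; ring
  obtain ⟨Ω, hΩ⟩ := cauchySeq_tendsto_of_complete (cauchySeq_of_le_geometric_two hstep)
  have hΩv : ∀ v, Tendsto (fun n => W n v) atTop (𝓝 (Ω v)) := fun v =>
    ((ContinuousLinearMap.apply ℂ H v).continuous.tendsto Ω).comp hΩ
  have hP : ∀ v, Ω (cproj b S v) = Ω v := by
    intro v
    refine tendsto_nhds_unique (hΩv _) ?_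
    have : (fun n => W n (cproj b S v)) = fun n => W n v := by
      funext n
      simp [hW, U, cproj_cproj]
    rw [this]
    exact hΩv v
  have hI : ∀ v, T (Ω v) = Ω (A (cproj b S v)) := by
    intro v
    have h1 : Tendsto (fun n => T (W (n + 1) v)) atTop (𝓝 (T (Ω v))) :=
      (T.continuous.tendsto _).comp ((hΩv v).comp (tendsto_add_atTop_nat 1))
    refine tendsto_nhds_unique h1 ?_
    have : (fun n => T (W (n + 1) v)) = fun n => W n (A (cproj b S v)) := by
      funext n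
      have h2 : cproj b S (A (cproj b S v)) = A (cproj b S v) :=
        cproj_eq_self b S _ (fun s hs => hA1 _ s (fun h => hs (hRS h)))
      have h3 : U n (A (cproj b S v)) = U (n + 1) v := by
        simp [U, h2, pow_succ]
      rw [hW, hW, h3, pow_succ']
      simp
    rw [this]
    exact hΩv _
  have hIn : ∀ n v, (T ^ n) (Ω v) = Ω (U n v) := by
    intro n v
    induction n with
    | zero => simp [hU0, hP]
    | succ n ih =>
      rw [pow_succ', LinearIsometryEquiv.coe_mul, Function.comp_apply, ih, hI, hUs,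
        cproj_eq_self b S _ (hUS n v)]
  refine ⟨Ω, fun v => ?_, hP, fun v => ⟨_, hA1 _, hI v⟩, fun m ε hε => ?_⟩
  · have h1 := dist_le_of_le_geometric_two_of_tendsto₀ hstep hΩ
    rw [dist_comm, dist_eq_norm] at h1
    have h2 : Ω v - cproj b S v = (Ω - W 0) v := by
      simp [hW, hU0]
    rw [h2]
    exact ((Ω - W 0).le_opNorm v).trans (mul_le_mul_of_nonneg_right h1 (norm_nonneg v))
  · obtain ⟨n, hn⟩ := tail_small b (ContinuousLinearMap.adjoint Ω m) (ε / 2) (by positivity)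
    refine ⟨n, fun v => ?_⟩
    rw [hIn, ← ContinuousLinearMap.adjoint_inner_left]
    refine (hn _ (hUn n v)).trans ?_
    calc ε / 2 * ‖U n v‖ ≤ ε / 2 * (2 * ‖v‖) :=
          mul_le_mul_of_nonneg_left (hUb2 n v) (by positivity)
      _ = _ := by ring

end Pool.Agent.Lib.MP_dd30de_lc
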